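import Mathlib

set_option autoImplicit false

namespace Pool.Agent.Results.MP_ada285_co.OnlineBounded

/-- An on-line colouring algorithm. When the vertex number `n` arrives (numbering from `0`),
the algorithm sees the graph induced by the `n + 1` vertices revealed so far, numbered in their
order of arrival (the new vertex is the last one), together with the colours of the `n` earlier
vertices, and it answers with the colour of the new vertex. -/
def OnlineAlg : Type := (n : ℕ) → SimpleGraph (Fin (n + 1)) → (Fin n → ℕ) → ℕ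

/-- The colour that `A` gives to the vertex `π i` when the vertices of `G` are revealed
in the order `π 0, π 1, ..., π (N-1)`. -/
def colour (A : OnlineAlg) {N : ℕ} (G : SimpleGraph (Fin N)) (π : Equiv.Perm (Fin N)) :
    (i : ℕ) → i < N → ℕ
  | i, hi => A i (G.comap fun j : Fin (i + 1) => π ⟨j.1, by omega⟩)
      (fun j : Fin i => colour A G π j.1 (by omega))
termination_by i => i
decreasing_by exact j.2

/-- `A` works on `G`: for every order, adjacent vertices get distinct colours. -/
def WorksOn (A : OnlineAlg) {N : ℕ} (G : SimpleGraph (Fin N)) : Prop :=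
  ∀ π : Equiv.Perm (Fin N), ∀ i j : Fin N, G.Adj (π i) (π j) →
    colour A G π i i.2 ≠ colour A G π j j.2

/-- The number of colours that `A` uses on `G` under the order `π`. -/
def numColours (A : OnlineAlg) {N : ℕ} (G : SimpleGraph (Fin N)) (π : Equiv.Perm (Fin N)) : ℕ :=
  (Finset.univ.image fun i : Fin N => colour A G π i i.2).card

/-- The largest number of colours that `A` uses on `G`, over all orders. -/
def chiA (A : OnlineAlg) {N : ℕ} (G : SimpleGraph (Fin N)) : ℕ :=
  Finset.univ.sup fun π : Equiv.Perm (Fin N) => numColours A G π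

/-- The on-line chromatic number of `G`: the least value of `chiA A G` over all on-line
algorithms `A` that work on `G`. -/
noncomputable def chiOL {N : ℕ} (G : SimpleGraph (Fin N)) : ℕ :=
  sInf {k : ℕ | ∃ A : OnlineAlg, WorksOn A G ∧ chiA A G = k}

/-- A class of finite graphs is on-line `chiOL`-bounded if there are a single on-line algorithm
`A` that works on every graph of the class and a function `h` with `chiA A G ≤ h (chiOL G)`
for all graphs `G` of the class. -/
def IsOnlineBounded (C : (N : ℕ) → SimpleGraph (Fin N) → Prop) : Prop :=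
  ∃ A : OnlineAlg, (∀ (N : ℕ) (G : SimpleGraph (Fin N)), C N G → WorksOn A G) ∧
    ∃ h : ℕ → ℕ, ∀ (N : ℕ) (G : SimpleGraph (Fin N)), C N G → chiA A G ≤ h (chiOL G)

/-- `G` contains neither a triangle nor a path on six vertices as an induced subgraph. -/
def C3P6Free (N : ℕ) (G : SimpleGraph (Fin N)) : Prop :=
  G.CliqueFree 3 ∧ IsEmpty (SimpleGraph.pathGraph 6 ↪g G)

/-- Sanity: the recursion for the colours. -/
lemma colour_step (A : OnlineAlg) {N : ℕ} (G : SimpleGraph (Fin N)) (π : Equiv.Perm (Fin N))
    (i : ℕ) (hi : i < N) : colour A G π i hi =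
      A i (G.comap fun j : Fin (i + 1) => π ⟨j.1, by omega⟩)
        (fun j : Fin i => colour A G π j.1 (by omega)) := by
  rw [colour]

/-- Sanity: every graph has an on-line algorithm that works on it (give every vertex its own
colour), so the set in the definition of `chiOL` is never empty. -/
lemma exists_works {N : ℕ} (G : SimpleGraph (Fin N)) : ∃ A : OnlineAlg, WorksOn A G := by
  obtain ⟨A, hA⟩ : ∃ A : OnlineAlg, ∀ n Γ c, A n Γ c = n := ⟨fun n _ _ => n, fun _ _ _ => rfl⟩
  refine ⟨A, ?_⟩
  intro π i j hij h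
  rw [colour_step, colour_step, hA, hA] at h
  have : i = j := Fin.ext h
  rw [this] at hij
  exact G.loopless.irrefl _ hij

/-- Sanity: some algorithm that works on `G` attains `chiOL G`. -/
lemma chiOL_attained {N : ℕ} (G : SimpleGraph (Fin N)) :
    ∃ A : OnlineAlg, WorksOn A G ∧ chiA A G = chiOL G := by
  obtain ⟨A, hA⟩ := exists_works G
  exact Nat.sInf_mem (s := {k : ℕ | ∃ A : OnlineAlg, WorksOn A G ∧ chiA A G = k}) ⟨_, A, hA, rfl⟩

/-! Runs on graphs with vertex set the natural numbers -/

/-- The run of `A` on a graph on the natural numbers, revealed in the natural order. -/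
def run (A : OnlineAlg) (H : SimpleGraph ℕ) : ℕ → ℕ
  | i => A i (H.comap fun j : Fin (i + 1) => j.1) (fun j : Fin i => run A H j.1)
termination_by i => i
decreasing_by exact j.2

lemma run_congr (A : OnlineAlg) (H H' : SimpleGraph ℕ) (n : ℕ)
    (h : ∀ a b, a < n → b < n → (H.Adj a b ↔ H'.Adj a b)) :
    ∀ i, i < n → run A H i = run A H' i := by
  intro i
  induction i using Nat.strong_induction_on with
  | _ i ih =>
    intro hi
    rw [run, run]
    congr 1
    · ext a b
      simp only [SimpleGraph.comap_adj]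
      exact h _ _ (by omega) (by omega)
    · funext j
      exact ih j.1 j.2 (by omega)

lemma colour_eq_run (A : OnlineAlg) {N : ℕ} (G : SimpleGraph (Fin N)) (π : Equiv.Perm (Fin N))
    (H : SimpleGraph ℕ) (n : ℕ)
    (h : ∀ a b (ha : a < N) (hb : b < N), a < n → b < n →
      (H.Adj a b ↔ G.Adj (π ⟨a, ha⟩) (π ⟨b, hb⟩))) :
    ∀ i (hi : i < N), i < n → colour A G π i hi = run A H i := by
  intro i
  induction i using Nat.strong_induction_on with
  | _ i ih =>
    intro hi hin
    rw [colour, run]
    congr 1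
    · ext a b
      simp only [SimpleGraph.comap_adj]
      exact (h _ _ _ _ (by omega) (by omega)).symm
    · funext j
      exact ih j.1 j.2 (by omega) (by omega)

/-! The graphs `X_k`: binary strings of length less than `k` -/

/-- `true` if the number of letters `false` is even. -/
def par : List Bool → Bool
  | [] => true
  | true :: l => par l
  | false :: l => !par l

/-- Adjacency of binary strings: one is a proper prefix of the other one and the rest has an odd
number of letters `false`. -/
def sadj : List Bool → List Bool → Prop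
  | [], [] => False
  | [], b :: l => par (b :: l) = false
  | b :: l, [] => par (b :: l) = false
  | b :: l, b' :: l' => b = b' ∧ sadj l l'

/-- `H'` on `{0,...,n'-1}` extends `H` on `{0,...,n-1}` by a copy of an induced subgraph
of `X_k`, with no edges to the old part. -/
structure Ext (H : SimpleGraph ℕ) (n : ℕ) (H' : SimpleGraph ℕ) (n' k : ℕ)
    (f : ℕ → List Bool) : Prop where
  le : n ≤ n'
  old : ∀ a b, a < n → b < n → (H'.Adj a b ↔ H.Adj a b)
  sep : ∀ a b, a < n → n ≤ b → b < n' → ¬ H'.Adj a b
  len : ∀ y, n ≤ y → y < n' → (f y).length < k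
  inj : ∀ y y', n ≤ y → y < n' → n ≤ y' → y' < n' → f y = f y' → y = y'
  adj : ∀ y y', n ≤ y → y < n' → n ≤ y' → y' < n' → (H'.Adj y y' ↔ sadj (f y) (f y'))

def Good (A : OnlineAlg) (H : SimpleGraph ℕ) (n k : ℕ) : Prop :=
  ∀ H' n' f, Ext H n H' n' k f → ∀ a b, a < n' → b < n' → H'.Adj a b → run A H' a ≠ run A H' b

/-- Colours on the side `b` of the new part. -/
def side (A : OnlineAlg) (H : SimpleGraph ℕ) (n n' : ℕ) (f : ℕ → List Bool) (b : Bool) :
    Finset ℕ :=
  ((Finset.Ico n n').filter fun y => par (f y) = b).image (run A H)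

lemma mem_side (A : OnlineAlg) (H : SimpleGraph ℕ) (n n' : ℕ) (f : ℕ → List Bool) (b : Bool)
    (c : ℕ) : c ∈ side A H n n' f b ↔ ∃ y, n ≤ y ∧ y < n' ∧ par (f y) = b ∧ run A H y = c := by
  simp only [side, Finset.mem_image, Finset.mem_filter, Finset.mem_Ico]
  constructor
  · rintro ⟨y, ⟨⟨h1, h2⟩, h3⟩, h4⟩
    exact ⟨y, h1, h2, h3, h4⟩
  · rintro ⟨y, h1, h2, h3, h4⟩
    exact ⟨y, ⟨⟨h1, h2⟩, h3⟩, h4⟩

lemma Ext.mono {H H' : SimpleGraph ℕ} {n n' k k' : ℕ} {f : ℕ → List Bool}
    (h : Ext H n H' n' k f) (hk : k ≤ k') : Ext H n H' n' k' f :=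
  ⟨h.le, h.old, h.sep, fun y h1 h2 => lt_of_lt_of_le (h.len y h1 h2) hk, h.inj, h.adj⟩

lemma sadj_symm : ∀ l l' : List Bool, sadj l l' → sadj l' l
  | [], [], h => h
  | [], _ :: _, h => h
  | _ :: _, [], h => h
  | _ :: l, _ :: l', h => ⟨h.1.symm, sadj_symm l l' h.2⟩

/-- Combining two consecutive extensions. -/
lemma Ext.comb {H H1 H2 : SimpleGraph ℕ} {n n1 n2 k : ℕ} {f1 f2 : ℕ → List Bool}
    (h1 : Ext H n H1 n1 k f1) (h2 : Ext H1 n1 H2 n2 k f2) (b : Bool) :
    Ext H n H2 n2 (k + 2)
      (fun y => if y < n1 then true :: true :: f1 y else false :: b :: f2 y) := by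
  have hle1 := h1.le
  have hle2 := h2.le
  refine ⟨by omega, ?_, ?_, ?_, ?_, ?_⟩
  · intro a c ha hc
    rw [h2.old a c (by omega) (by omega), h1.old a c ha hc]
  · intro a c ha hc hc'
    by_cases hcn : c < n1
    · rw [h2.old a c (by omega) hcn]
      exact h1.sep a c ha hc hcn
    · exact h2.sep a c (by omega) (by omega) hc'
  · intro y hy hy'
    by_cases hyn : y < n1
    · have := h1.len y hy hyn
      simp [hyn]
      omega
    · have := h2.len y (by omega) hy'
      simp [hyn]
      omega
  · intro y y' hy hy1 hy' hy1' he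
    by_cases hyn : y < n1 <;> by_cases hyn' : y' < n1
    · simp only [hyn, hyn', if_true] at he
      exact h1.inj y y' hy hyn hy' hyn' (by simpa using he)
    · simp [hyn, hyn'] at he
    · simp [hyn, hyn'] at he
    · simp only [hyn, hyn', if_false] at he
      exact h2.inj y y' (by omega) hy1 (by omega) hy1' (by simpa using he)
  · intro y y' hy hy1 hy' hy1'
    by_cases hyn : y < n1 <;> by_cases hyn' : y' < n1
    · simp only [hyn, hyn', if_true, sadj, true_and]
      rw [h2.old y y' hyn hyn', h1.adj y y' hy hyn hy' hyn']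
    · have := h2.sep y y' hyn (by omega) hy1'
      simp [hyn, hyn', sadj, this]
    · have := h2.sep y' y hyn' (by omega) hy1
      have h3 : ¬ H2.Adj y y' := fun h => this h.symm
      simp [hyn, hyn', sadj, h3]
    · simp only [hyn, hyn', if_false, sadj, true_and]
      rw [h2.adj y y' (by omega) hy1 (by omega) hy1']

/-- Adding a root. -/
def addRoot (H : SimpleGraph ℕ) (n n1 : ℕ) (f : ℕ → List Bool) : SimpleGraph ℕ where
  Adj a b := (a < n1 ∧ b < n1 ∧ H.Adj a b) ∨
    (a = n1 ∧ n ≤ b ∧ b < n1 ∧ par (f b) = false) ∨ (b = n1 ∧ n ≤ a ∧ a < n1 ∧ par (f a) = false)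
  symm := ⟨by
    rintro a b (⟨h1, h2, h3⟩ | h | h)
    · exact Or.inl ⟨h2, h1, h3.symm⟩
    · exact Or.inr (Or.inr h)
    · exact Or.inr (Or.inl h)⟩
  loopless := ⟨by
    rintro a (⟨_, _, h3⟩ | h | h)
    · exact H.loopless.irrefl a h3
    · omega
    · omega⟩


lemma Ext.root {H H1 : SimpleGraph ℕ} {n n1 k : ℕ} {f1 : ℕ → List Bool}
    (h1 : Ext H n H1 n1 k f1) :
    Ext H n (addRoot H1 n n1 f1) (n1 + 1) (k + 1)
      (fun y => if y < n1 then true :: f1 y else []) := by
  have hle1 := h1.le
  have key : ∀ a b, a < n1 → b < n1 → ((addRoot H1 n n1 f1).Adj a b ↔ H1.Adj a b) := by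
    intro a b ha hb
    simp only [addRoot]
    constructor
    · rintro (⟨_, _, h⟩ | h | h)
      · exact h
      · omega
      · omega
    · intro h
      exact Or.inl ⟨ha, hb, h⟩
  have keyr : ∀ b, b < n1 → ((addRoot H1 n n1 f1).Adj n1 b ↔ n ≤ b ∧ par (f1 b) = false) := by
    intro b hb
    simp only [addRoot]
    constructor
    · rintro (⟨h, _⟩ | h | h)
      · omega
      · exact ⟨h.2.1, h.2.2.2⟩
      · omega
    · intro h
      exact Or.inr (Or.inl ⟨trivial, h.1, hb, h.2⟩)
  refine ⟨by omega, ?_, ?_, ?_, ?_, ?_⟩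
  · intro a c ha hc
    rw [key a c (by omega) (by omega), h1.old a c ha hc]
  · intro a c ha hc hc'
    by_cases hcn : c < n1
    · rw [key a c (by omega) hcn]
      exact h1.sep a c ha hc hcn
    · have : c = n1 := by omega
      subst this
      intro h
      have := (keyr a (by omega)).1 h.symm
      omega
  · intro y hy hy'
    by_cases hyn : y < n1
    · have := h1.len y hy hyn
      simp [hyn]
      omega
    · simp [hyn]
  · intro y y' hy hy1 hy' hy1' he
    by_cases hyn : y < n1 <;> by_cases hyn' : y' < n1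
    · simp only [hyn, hyn', if_true] at he
      exact h1.inj y y' hy hyn hy' hyn' (by simpa using he)
    · simp [hyn, hyn'] at he
    · simp [hyn, hyn'] at he
    · omega
  · intro y y' hy hy1 hy' hy1'
    by_cases hyn : y < n1 <;> by_cases hyn' : y' < n1
    · simp only [hyn, hyn', if_true, sadj, true_and]
      rw [key y y' hyn hyn', h1.adj y y' hy hyn hy' hyn']
    · have e : y' = n1 := by omega
      subst e
      rw [SimpleGraph.adj_comm, keyr y hyn]
      simp [hyn, sadj, par, hy]
    · have e : y = n1 := by omega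
      subst e
      rw [keyr y' hyn']
      simp [hyn', sadj, par, hy']
    · have e : y = n1 := by omega
      have e' : y' = n1 := by omega
      subst e
      subst e'
      simp [sadj]

lemma side_comb_true (A : OnlineAlg) {H H1 H2 : SimpleGraph ℕ} {n n1 n2 k : ℕ}
    {f1 f2 : ℕ → List Bool}
    (h1 : Ext H n H1 n1 k f1) (h2 : Ext H1 n1 H2 n2 k f2) (b c : Bool) :
    side A H2 n n2 (fun y => if y < n1 then true :: true :: f1 y else false :: b :: f2 y) c
      = side A H1 n n1 f1 c ∪ side A H2 n1 n2 f2 (if b then !c else c) := by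
  have hle1 := h1.le
  have hle2 := h2.le
  have hrun := run_congr A H2 H1 n1 h2.old
  ext x
  rw [Finset.mem_union, mem_side, mem_side, mem_side]
  constructor
  · rintro ⟨y, hy, hy', hp, hx⟩
    by_cases hyn : y < n1
    · left
      refine ⟨y, hy, hyn, ?_, ?_⟩
      · simpa [hyn, par] using hp
      · rw [← hrun y hyn]
        exact hx
    · right
      refine ⟨y, by omega, hy', ?_, hx⟩
      simp only [hyn, if_false] at hp
      cases b
      · simpa [par] using hp
      · simp [par] at hp ⊢
        rw [← hp]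
        try simp
  · rintro (⟨y, hy, hy', hp, hx⟩ | ⟨y, hy, hy', hp, hx⟩)
    · refine ⟨y, hy, by omega, ?_, ?_⟩
      · simpa [hy', par] using hp
      · rw [hrun y hy']
        exact hx
    · refine ⟨y, by omega, hy', ?_, hx⟩
      have hyn : ¬ y < n1 := by omega
      simp only [hyn, if_false]
      cases b
      · simpa [par] using hp
      · simp [par] at hp ⊢
        rw [hp]
        try simp

/-- The adversary. -/
lemma force (A : OnlineAlg) : ∀ p : ℕ, ∀ (H : SimpleGraph ℕ) (n : ℕ), Good A H n (2 * p) →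
    ∃ H' n' f, Ext H n H' n' (2 * p) f ∧
      p ≤ (side A H' n n' f true).card + (side A H' n n' f false).card := by
  intro p
  induction p with
  | zero =>
    intro H n _
    refine ⟨H, n, fun _ => [], ⟨le_rfl, fun _ _ _ _ => Iff.rfl, ?_, ?_, ?_, ?_⟩, Nat.zero_le _⟩
    · intro a b _ h1 h2
      omega
    · intro y h1 h2
      omega
    · intro y _ h1 h2
      omega
    · intro y _ h1 h2
      omega
  | succ p ih =>
    intro H n hG
    obtain ⟨H1, n1, f1, hE1, hp1⟩ := ih H n (fun H' n' f hE => hG H' n' f (hE.mono (by omega)))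
    have hle1 := hE1.le
    by_cases heq : side A H1 n n1 f1 true = side A H1 n n1 f1 false
    · -- add a root
      have hR := hE1.root
      have hR' : Ext H n (addRoot H1 n n1 f1) (n1 + 1) (2 * (p + 1))
          (fun y => if y < n1 then true :: f1 y else []) := hR.mono (by omega)
      have hprop := hG _ _ _ hR'
      have hrun : ∀ i, i < n1 → run A (addRoot H1 n n1 f1) i = run A H1 i := by
        apply run_congr
        intro a b ha hb
        simp only [addRoot]
        constructor
        · rintro (⟨_, _, h⟩ | h | h)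
          · exact h
          · omega
          · omega
        · intro h
          exact Or.inl ⟨ha, hb, h⟩
      refine ⟨_, _, _, hR', ?_⟩
      set w := run A (addRoot H1 n n1 f1) n1 with hw
      have hwn : w ∉ side A H1 n n1 f1 false := by
        intro hmem
        obtain ⟨y, hy, hy', hpar, hx⟩ := (mem_side _ _ _ _ _ _ _).1 hmem
        refine hprop n1 y (by omega) (by omega) ?_ ?_
        · exact Or.inr (Or.inl ⟨rfl, hy, hy', hpar⟩)
        · rw [hrun y hy', hx]
      have hs1 : insert w (side A H1 n n1 f1 true) ⊆ side A (addRoot H1 n n1 f1) n (n1 + 1)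
          (fun y => if y < n1 then true :: f1 y else []) true := by
        intro x hx
        rw [mem_side]
        rcases Finset.mem_insert.1 hx with rfl | hx
        · exact ⟨n1, hle1, by omega, by simp [par], rfl⟩
        · obtain ⟨y, hy, hy', hpar, hx⟩ := (mem_side _ _ _ _ _ _ _).1 hx
          exact ⟨y, hy, by omega, by simpa [hy', par] using hpar, by rw [hrun y hy', hx]⟩
      have hs2 : side A H1 n n1 f1 false ⊆ side A (addRoot H1 n n1 f1) n (n1 + 1)
          (fun y => if y < n1 then true :: f1 y else []) false := by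
        intro x hx
        rw [mem_side]
        obtain ⟨y, hy, hy', hpar, hx⟩ := (mem_side _ _ _ _ _ _ _).1 hx
        exact ⟨y, hy, by omega, by simpa [hy', par] using hpar, by rw [hrun y hy', hx]⟩
      have hc1 := Finset.card_le_card hs1
      have hc2 := Finset.card_le_card hs2
      rw [← heq] at hwn
      rw [Finset.card_insert_of_notMem hwn] at hc1
      omega
    · obtain ⟨H2, n2, f2, hE2, hp2⟩ := ih H1 n1 (by
        intro H' n' f hE
        exact hG H' n' _ ((hE1.comb hE true).mono (by omega)))
      have hle2 := hE2.le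
      set R1 := side A H1 n n1 f1 true with hR1
      set N1 := side A H1 n n1 f1 false with hN1
      set R2 := side A H2 n1 n2 f2 true with hR2
      set N2 := side A H2 n1 n2 f2 false with hN2
      by_cases hal : p + 1 ≤ (R1 ∪ R2).card + (N1 ∪ N2).card
      · refine ⟨H2, n2, _, (hE1.comb hE2 false).mono (by omega), ?_⟩
        rw [side_comb_true A hE1 hE2 false true, side_comb_true A hE1 hE2 false false]
        simpa using hal
      · refine ⟨H2, n2, _, (hE1.comb hE2 true).mono (by omega), ?_⟩
        rw [side_comb_true A hE1 hE2 true true, side_comb_true A hE1 hE2 true false]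
        simp only [if_true, Bool.not_true, Bool.not_false]
        rw [← hR1, ← hN1, ← hR2, ← hN2]
        have a1 : R1.card ≤ (R1 ∪ R2).card := Finset.card_le_card Finset.subset_union_left
        have a2 : R2.card ≤ (R1 ∪ R2).card := Finset.card_le_card Finset.subset_union_right
        have a3 : N1.card ≤ (N1 ∪ N2).card := Finset.card_le_card Finset.subset_union_left
        have a4 : N2.card ≤ (N1 ∪ N2).card := Finset.card_le_card Finset.subset_union_right
        have e1 : R1 = R1 ∪ R2 := Finset.eq_of_subset_of_card_le Finset.subset_union_left (by omega)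
        have e2 : R2 = R1 ∪ R2 := Finset.eq_of_subset_of_card_le Finset.subset_union_right (by omega)
        have e3 : N1 = N1 ∪ N2 := Finset.eq_of_subset_of_card_le Finset.subset_union_left (by omega)
        have e4 : N2 = N1 ∪ N2 := Finset.eq_of_subset_of_card_le Finset.subset_union_right (by omega)
        have f1 : R2 = R1 := e2.trans e1.symm
        have f2 : N2 = N1 := e4.trans e3.symm
        rw [f1, f2]
        have b1 : R1.card ≤ (R1 ∪ N1).card := Finset.card_le_card Finset.subset_union_left
        have b2 : N1.card ≤ (R1 ∪ N1).card := Finset.card_le_card Finset.subset_union_right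
        have b3 : (N1 ∪ R1).card = (R1 ∪ N1).card := by rw [Finset.union_comm]
        by_contra hcon
        have g1 : R1 = R1 ∪ N1 :=
          Finset.eq_of_subset_of_card_le Finset.subset_union_left (by omega)
        have g2 : N1 = R1 ∪ N1 :=
          Finset.eq_of_subset_of_card_le Finset.subset_union_right (by omega)
        exact heq (g1.trans g2.symm)


/-- An injective sequence of vertices is the beginning of an order. -/
lemma exists_perm {N : ℕ} (n' : ℕ) (g : ℕ → Fin N)
    (hg : ∀ y y', y < n' → y' < n' → g y = g y' → y = y') :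
    n' ≤ N ∧ ∃ π : Equiv.Perm (Fin N), ∀ y (_ : y < n') (hN : y < N), π ⟨y, hN⟩ = g y := by
  have hle : n' ≤ N := by
    have hinj : Function.Injective (fun y : Fin n' => g y.1) := by
      intro a b hab
      exact Fin.ext (hg a.1 b.1 a.2 b.2 hab)
    have := Fintype.card_le_of_injective _ hinj
    simpa using this
  refine ⟨hle, ?_⟩
  let F : {i : Fin N // i.1 < n'} → {j : Fin N // ∃ y, y < n' ∧ g y = j} :=
    fun i => ⟨g i.1.1, i.1.1, i.2, rfl⟩
  have hF : Function.Bijective F := by
    constructor
    · intro a b hab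
      have h1 : g a.1.1 = g b.1.1 := congrArg Subtype.val hab
      exact Subtype.ext (Fin.ext (hg _ _ a.2 b.2 h1))
    · rintro ⟨j, y, hy, hj⟩
      exact ⟨⟨⟨y, by omega⟩, hy⟩, Subtype.ext hj⟩
  classical
  refine ⟨(Equiv.ofBijective F hF).extendSubtype, ?_⟩
  intro y hy hN
  rw [Equiv.extendSubtype_apply_of_mem (Equiv.ofBijective F hF) ⟨y, hN⟩ hy]
  rfl

/-- A graph containing `X_{4c+2}` as an induced subgraph has on-line chromatic number
larger than `c`. -/
lemma lower (A : OnlineAlg) {N : ℕ} (G : SimpleGraph (Fin N)) (hW : WorksOn A G) (c : ℕ)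
    (φ : List Bool → Fin N)
    (hinj : ∀ l l', l.length < 4 * c + 2 → l'.length < 4 * c + 2 → φ l = φ l' → l = l')
    (hadj : ∀ l l', l.length < 4 * c + 2 → l'.length < 4 * c + 2 →
      (G.Adj (φ l) (φ l') ↔ sadj l l')) : c < chiA A G := by
  have hreal : ∀ H' n' f, Ext (⊥ : SimpleGraph ℕ) 0 H' n' (2 * (2 * c + 1)) f →
      n' ≤ N ∧ ∃ π : Equiv.Perm (Fin N),
        (∀ y (hN : y < N), y < n' → colour A G π y hN = run A H' y) ∧
        (∀ a b (ha : a < N) (hb : b < N), a < n' → b < n' →
          (H'.Adj a b ↔ G.Adj (π ⟨a, ha⟩) (π ⟨b, hb⟩))) := by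
    intro H' n' f hE
    obtain ⟨hle, π, hπ⟩ := exists_perm n' (fun y => φ (f y)) (by
      intro y y' hy hy' he
      apply hE.inj y y' (Nat.zero_le _) hy (Nat.zero_le _) hy'
      apply hinj _ _ _ _ he
      · have := hE.len y (Nat.zero_le _) hy
        omega
      · have := hE.len y' (Nat.zero_le _) hy'
        omega)
    have hA : ∀ a b (ha : a < N) (hb : b < N), a < n' → b < n' →
        (H'.Adj a b ↔ G.Adj (π ⟨a, ha⟩) (π ⟨b, hb⟩)) := by
      intro a b ha hb ha' hb'
      rw [hπ a ha' ha, hπ b hb' hb, hadj, hE.adj a b (Nat.zero_le _) ha' (Nat.zero_le _) hb']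
      · have := hE.len a (Nat.zero_le _) ha'
        omega
      · have := hE.len b (Nat.zero_le _) hb'
        omega
    refine ⟨hle, π, ?_, hA⟩
    intro y hN hy
    exact colour_eq_run A G π H' n' hA y hN hy
  have hgood : Good A (⊥ : SimpleGraph ℕ) 0 (2 * (2 * c + 1)) := by
    intro H' n' f hE a b ha hb hab
    obtain ⟨hle, π, h1, h2⟩ := hreal H' n' f hE
    rw [← h1 a (by omega) ha, ← h1 b (by omega) hb]
    exact hW π ⟨a, by omega⟩ ⟨b, by omega⟩ ((h2 a b (by omega) (by omega) ha hb).1 hab)
  obtain ⟨H', n', f, hE, hp⟩ := force A (2 * c + 1) ⊥ 0 hgood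
  obtain ⟨hle, π, h1, h2⟩ := hreal H' n' f hE
  have hsub : ∀ b, side A H' 0 n' f b ⊆ Finset.univ.image fun i : Fin N => colour A G π i i.2 := by
    intro b x hx
    obtain ⟨y, _, hy, _, hx⟩ := (mem_side _ _ _ _ _ _ _).1 hx
    refine Finset.mem_image.2 ⟨⟨y, by omega⟩, Finset.mem_univ _, ?_⟩
    rw [← hx]
    exact h1 y (by omega) hy
  have c1 := Finset.card_le_card (hsub true)
  have c2 := Finset.card_le_card (hsub false)
  have c3 : numColours A G π ≤ chiA A G :=
    Finset.le_sup (f := fun π => numColours A G π) (Finset.mem_univ π)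
  unfold numColours at c3
  omega


/-! Structure of the revealed graphs -/

/-- The graph formed by the first `m` vertices. -/
def rest (H : SimpleGraph ℕ) (m : ℕ) : SimpleGraph ℕ where
  Adj a b := H.Adj a b ∧ a < m ∧ b < m
  symm := ⟨fun _ _ h => ⟨h.1.symm, h.2.2, h.2.1⟩⟩
  loopless := ⟨fun a h => H.loopless.irrefl a h.1⟩

lemma rest_mono (H : SimpleGraph ℕ) {m m' : ℕ} (h : m ≤ m') : rest H m ≤ rest H m' :=
  fun _ _ hab => ⟨hab.1, lt_of_lt_of_le hab.2.1 h, lt_of_lt_of_le hab.2.2 h⟩

lemma rest_rest (H : SimpleGraph ℕ) {m m' : ℕ} (h : m ≤ m') : rest (rest H m') m = rest H m := by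
  ext a b
  constructor
  · intro hab
    exact ⟨hab.1.1, hab.2⟩
  · intro hab
    exact ⟨⟨hab.1, lt_of_lt_of_le hab.2.1 h, lt_of_lt_of_le hab.2.2 h⟩, hab.2⟩

lemma reach_ind {V : Type} {S : SimpleGraph V} {x : V} (P : V → Prop) (h0 : P x)
    (hs : ∀ a b, S.Reachable x a → P a → S.Adj a b → P b) : ∀ a, S.Reachable x a → P a := by
  have key : ∀ u v (_ : S.Walk u v), S.Reachable x u → P u → P v := by
    intro u v w
    induction w with
    | nil => intro _ h; exact h
    | cons hadj _ ih =>
      intro hr hu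
      exact ih (hr.trans hadj.reachable) (hs _ _ hr hu hadj)
  rintro a ⟨w⟩
  exact key x a w (SimpleGraph.Reachable.refl x) h0

/-- `a` is in the component of `t` at the time when `t` is revealed. -/
def Cmp (H : SimpleGraph ℕ) (t a : ℕ) : Prop := (rest H (t + 1)).Reachable t a

/-- `s` is a proper 2-colouring of the component of `x`. -/
def Prp (S : SimpleGraph ℕ) (x : ℕ) (s : ℕ → Bool) : Prop :=
  ∀ a b, S.Reachable x a → S.Adj a b → s a ≠ s b

def Bip (H : SimpleGraph ℕ) (t : ℕ) : Prop := ∃ s, Prp (rest H (t + 1)) t s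

def NoTri (S : SimpleGraph ℕ) : Prop := ∀ a b c, S.Adj a b → S.Adj b c → S.Adj a c → False

def NoP6 (S : SimpleGraph ℕ) : Prop :=
  ∀ a0 a1 a2 a3 a4 a5, S.Adj a0 a1 → S.Adj a1 a2 → S.Adj a2 a3 → S.Adj a3 a4 → S.Adj a4 a5 →
    ¬ S.Adj a0 a2 → ¬ S.Adj a0 a3 → ¬ S.Adj a0 a4 → ¬ S.Adj a0 a5 → ¬ S.Adj a1 a3 →
    ¬ S.Adj a1 a4 → ¬ S.Adj a1 a5 → ¬ S.Adj a2 a4 → ¬ S.Adj a2 a5 → ¬ S.Adj a3 a5 → False

lemma NoTri.rest {H : SimpleGraph ℕ} (h : NoTri H) (m : ℕ) : NoTri (rest H m) :=
  fun a b c h1 h2 h3 => h a b c h1.1 h2.1 h3.1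

lemma NoP6.rest {H : SimpleGraph ℕ} (h : NoP6 H) (m : ℕ) : NoP6 (rest H m) := by
  intro a0 a1 a2 a3 a4 a5 h01 h12 h23 h34 h45 n02 n03 n04 n05 n13 n14 n15 n24 n25 n35
  have b0 := h01.2.1
  have b1 := h01.2.2
  have b2 := h12.2.2
  have b3 := h23.2.2
  have b4 := h34.2.2
  have b5 := h45.2.2
  exact h a0 a1 a2 a3 a4 a5 h01.1 h12.1 h23.1 h34.1 h45.1
    (fun q => n02 ⟨q, b0, b2⟩) (fun q => n03 ⟨q, b0, b3⟩) (fun q => n04 ⟨q, b0, b4⟩)
    (fun q => n05 ⟨q, b0, b5⟩) (fun q => n13 ⟨q, b1, b3⟩) (fun q => n14 ⟨q, b1, b4⟩)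
    (fun q => n15 ⟨q, b1, b5⟩) (fun q => n24 ⟨q, b2, b4⟩) (fun q => n25 ⟨q, b2, b5⟩)
    (fun q => n35 ⟨q, b3, b5⟩)

lemma reach_lt {H : SimpleGraph ℕ} {m x : ℕ} (hx : x < m) :
    ∀ a, (rest H m).Reachable x a → a < m :=
  reach_ind (fun a => a < m) hx (fun _ _ _ _ h => h.2.2)

lemma Cmp.le {H : SimpleGraph ℕ} {t a : ℕ} (h : Cmp H t a) : a ≤ t :=
  Nat.lt_succ_iff.1 (reach_lt (Nat.lt_succ_self t) a h)

lemma Cmp.refl (H : SimpleGraph ℕ) (t : ℕ) : Cmp H t t := SimpleGraph.Reachable.refl t

lemma Cmp.trans {H : SimpleGraph ℕ} {t a b : ℕ} (h : Cmp H t a) (h' : Cmp H a b) : Cmp H t b :=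
  SimpleGraph.Reachable.trans h
    (SimpleGraph.Reachable.mono (rest_mono H (Nat.succ_le_succ h.le)) h')

lemma Cmp.trans' {H : SimpleGraph ℕ} {t a b : ℕ} (h : Cmp H t a)
    (h' : (rest H (t + 1)).Reachable a b) : Cmp H t b :=
  SimpleGraph.Reachable.trans h h'

lemma cmp_of_adj {H : SimpleGraph ℕ} {t a : ℕ} (h : H.Adj t a) (hlt : a < t) : Cmp H t a := by
  have : (rest H (t + 1)).Adj t a := ⟨h, by omega, by omega⟩
  exact this.reachable

lemma Prp.mono {S S' : SimpleGraph ℕ} {x y : ℕ} {s : ℕ → Bool} (h : Prp S x s) (hS : S' ≤ S)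
    (hxy : S.Reachable x y) : Prp S' y s :=
  fun a b ha hab => h a b (hxy.trans (SimpleGraph.Reachable.mono hS ha)) (hS hab)

lemma Prp.cmp {H : SimpleGraph ℕ} {t u : ℕ} {s : ℕ → Bool} (h : Prp (rest H (t + 1)) t s)
    (hu : Cmp H t u) : Prp (rest H (u + 1)) u s :=
  Prp.mono h (rest_mono H (Nat.succ_le_succ hu.le)) hu

lemma Bip.cmp {H : SimpleGraph ℕ} {t u : ℕ} (h : Bip H t) (hu : Cmp H t u) : Bip H u := by
  obtain ⟨s, hs⟩ := h
  exact ⟨s, hs.cmp hu⟩

lemma two_col {S : SimpleGraph ℕ} {x : ℕ} {s s' : ℕ → Bool} (h : Prp S x s) (h' : Prp S x s') :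
    ∀ a, S.Reachable x a → (s a = s x ↔ s' a = s' x) := by
  apply reach_ind
  · simp
  · intro a b hr hP hab
    have h1 := h a b hr hab
    have h2 := h' a b hr hab
    revert hP h1 h2
    cases s a <;> cases s b <;> cases s x <;> cases s' a <;> cases s' b <;> cases s' x <;> simp

lemma two_col' {S : SimpleGraph ℕ} {x : ℕ} {s s' : ℕ → Bool} (h : Prp S x s) (h' : Prp S x s')
    {a b : ℕ} (ha : S.Reachable x a) (hb : S.Reachable x b) : (s a = s b ↔ s' a = s' b) := by
  have h1 := two_col h h' a ha
  have h2 := two_col h h' b hb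
  revert h1 h2
  cases s a <;> cases s b <;> cases s x <;> cases s' a <;> cases s' b <;> cases s' x <;> simp

/-- The latest vertex of a component. -/
lemma latest (H : SimpleGraph ℕ) (m a : ℕ) (ha : a < m) :
    ∃ u, u < m ∧ (rest H m).Reachable a u ∧ ∀ x, (rest H m).Reachable a x → Cmp H u x := by
  classical
  have hne : ((Finset.range m).filter fun x => (rest H m).Reachable a x).Nonempty :=
    ⟨a, by simp [ha]⟩
  set u := ((Finset.range m).filter fun x => (rest H m).Reachable a x).max' hne with hu
  have hmem := Finset.max'_mem _ hne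
  rw [← hu, Finset.mem_filter, Finset.mem_range] at hmem
  have hmax : ∀ x, (rest H m).Reachable a x → x ≤ u := by
    intro x hx
    apply Finset.le_max'
    rw [Finset.mem_filter, Finset.mem_range]
    exact ⟨reach_lt ha x hx, hx⟩
  refine ⟨u, hmem.1, hmem.2, ?_⟩
  intro x hx
  have hux : (rest H m).Reachable u x := hmem.2.symm.trans hx
  refine reach_ind (S := rest H m) (fun y => Cmp H u y) (Cmp.refl H u) ?_ x hux
  intro y z hy hP hyz
  have h1 := hmax y (hmem.2.trans hy)
  have h2 := hmax z ((hmem.2.trans hy).trans hyz.reachable)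
  have : (rest H (u + 1)).Adj y z := ⟨hyz.1, by omega, by omega⟩
  exact SimpleGraph.Reachable.trans hP this.reachable

/-- The new vertex has a neighbour in every old component that it meets. -/
lemma nbr {H : SimpleGraph ℕ} {t : ℕ} : ∀ b, Cmp H t b → b < t →
    ∃ x, H.Adj t x ∧ x < t ∧ (rest H t).Reachable x b := by
  have key : ∀ b, Cmp H t b → (b = t ∨ ∃ x, H.Adj t x ∧ x < t ∧ (rest H t).Reachable x b) := by
    apply reach_ind
    · exact Or.inl rfl
    · intro a b hr hP hab
      by_cases hb : b = t
      · exact Or.inl hb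
      · right
        have hbt : b < t := by
          have := hab.2.2
          omega
        rcases hP with rfl | ⟨x, h1, h2, h3⟩
        · exact ⟨b, hab.1, hbt, SimpleGraph.Reachable.refl b⟩
        · have hat := reach_lt h2 a h3
          have : (rest H t).Adj a b := ⟨hab.1, hat, hbt⟩
          exact ⟨x, h1, h2, h3.trans this.reachable⟩
  intro b hb hlt
  rcases key b hb with rfl | h
  · omega
  · exact h

lemma cmp_of_rest {H : SimpleGraph ℕ} {t a b : ℕ} (h : Cmp H t a)
    (h' : (rest H t).Reachable a b) : Cmp H t b :=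
  SimpleGraph.Reachable.trans h (SimpleGraph.Reachable.mono (rest_mono H (Nat.le_succ t)) h')

lemma first_step {S : SimpleGraph ℕ} {x y : ℕ} (h : S.Reachable x y) (hne : x ≠ y) :
    ∃ z, S.Adj x z := by
  obtain ⟨w⟩ := h
  cases w with
  | nil => exact absurd rfl hne
  | cons hadj _ => exact ⟨_, hadj⟩

/-- Distance three. -/
lemma d3 {S : SimpleGraph ℕ} (hP : NoP6 S) {x : ℕ} {s : ℕ → Bool} (hs : Prp S x s) :
    ∀ z, S.Reachable x z → s z ≠ s x →
      (S.Adj x z ∨ ∃ p q, S.Adj x p ∧ S.Adj p q ∧ S.Adj q z) := by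
  have hne : ∀ a b, S.Reachable x a → s a = s b → ¬ S.Adj a b :=
    fun a b ha hab h => hs a b ha h hab
  have key : ∀ z, S.Reachable x z →
      ((s z ≠ s x → (S.Adj x z ∨ ∃ p q, S.Adj x p ∧ S.Adj p q ∧ S.Adj q z)) ∧
      (s z = s x → ∀ z', S.Adj z z' →
        (S.Adj x z' ∨ ∃ p q, S.Adj x p ∧ S.Adj p q ∧ S.Adj q z'))) := by
    apply reach_ind
    · exact ⟨fun h => absurd rfl h, fun _ z' h => Or.inl h⟩
    · intro z w hz hQ hzw
      have hzw' := hs z w hz hzw
      constructor
      · intro hw
        have : s z = s x := by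
          revert hzw' hw
          cases s z <;> cases s w <;> cases s x <;> simp
        exact hQ.2 this w hzw
      · intro hw z' hwz'
        have hzx : s z ≠ s x := by
          revert hzw' hw
          cases s z <;> cases s w <;> cases s x <;> simp
        rcases hQ.1 hzx with h | ⟨p, q, h1, h2, h3⟩
        · exact Or.inr ⟨z, w, h, hzw, hwz'⟩
        · by_cases c1 : S.Adj x z
          · exact Or.inr ⟨z, w, c1, hzw, hwz'⟩
          by_cases c2 : S.Adj x z'
          · exact Or.inl c2
          by_cases c3 : S.Adj p w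
          · exact Or.inr ⟨p, w, h1, c3, hwz'⟩
          by_cases c4 : S.Adj q z'
          · exact Or.inr ⟨p, q, h1, h2, c4⟩
          exfalso
          have rx : S.Reachable x x := SimpleGraph.Reachable.refl x
          have rp : S.Reachable x p := h1.reachable
          have rq : S.Reachable x q := rp.trans h2.reachable
          have rw' : S.Reachable x w := hz.trans hzw.reachable
          have s1 := hs x p rx h1
          have s2 := hs p q rp h2
          have s3 := hs q z rq h3
          have s4 := hs w z' rw' hwz'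
          have e1 : s x = s q := by
            revert s1 s2
            cases s x <;> cases s p <;> cases s q <;> simp
          have e2 : s p = s z := by
            revert s2 s3
            cases s z <;> cases s p <;> cases s q <;> simp
          have e3 : s z = s z' := by
            revert hzw' s4
            cases s z <;> cases s w <;> cases s z' <;> simp
          exact hP x p q z w z' h1 h2 h3 hzw hwz' (hne x q rx e1) c1 (hne x w rx hw.symm) c2
            (hne p z rp e2) c3 (hne p z' rp (e2.trans e3)) (hne q w rq (e1.symm.trans hw.symm)) c4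
            (hne z z' hz e3)
  intro z hz
  exact (key z hz).1

/-- The new vertex is complete to the opposite side of a component. -/
lemma complete {H : SimpleGraph ℕ} (hP : NoP6 H) {t : ℕ} {s : ℕ → Bool}
    (hs : Prp (rest H (t + 1)) t s) {a b : ℕ} (ha : a < t) (hb : b < t) (hta : Cmp H t a)
    (htb : Cmp H t b) (hsep : ¬ (rest H t).Reachable a b) {y0 : ℕ}
    (hy0 : (rest H t).Reachable a y0) (hsy : s y0 = s t) :
    ∀ z, (rest H t).Reachable b z → s z ≠ s t → H.Adj t z := by
  obtain ⟨x, hx1, hx2, hx3⟩ := nbr a hta ha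
  have hcx : Cmp H t x := cmp_of_adj hx1 hx2
  have hsx : s t ≠ s x := hs t x (SimpleGraph.Reachable.refl t) ⟨hx1, by omega, by omega⟩
  have hxy0 : (rest H t).Reachable x y0 := hx3.trans hy0
  obtain ⟨y, hy⟩ := first_step hxy0 (by
    rintro rfl
    exact hsx hsy.symm)
  have hmono := rest_mono H (Nat.le_succ t)
  have hsxy : s x ≠ s y := hs x y hcx (hmono hy)
  have hcy : Cmp H t y := cmp_of_rest hcx hy.reachable
  have hsep' : ∀ v w, (rest H t).Reachable a v → (rest H t).Reachable b w → ¬ H.Adj v w := by
    intro v w hv hw hvw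
    have : (rest H t).Adj v w := ⟨hvw, reach_lt ha v hv, reach_lt hb w hw⟩
    exact hsep ((hv.trans this.reachable).trans hw.symm)
  have hne : ∀ v w, Cmp H t v → Cmp H t w → s v = s w → ¬ H.Adj v w := by
    intro v w hv hw hvw h
    have h1 := hv.le
    have h2 := hw.le
    exact hs v w hv ⟨h, by omega, by omega⟩ hvw
  have rax : (rest H t).Reachable a x := hx3.symm
  have ray : (rest H t).Reachable a y := rax.trans hy.reachable
  have star : ∀ x' y' z', (rest H t).Reachable b x' → H.Adj t x' → (rest H t).Adj x' y' →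
      (rest H t).Adj y' z' → H.Adj t z' := by
    intro x' y' z' hx' htx' hxy' hyz'
    by_contra hcon
    have rby : (rest H t).Reachable b y' := hx'.trans hxy'.reachable
    have rbz : (rest H t).Reachable b z' := rby.trans hyz'.reachable
    have cx' : Cmp H t x' := cmp_of_rest htb hx'
    have cy' : Cmp H t y' := cmp_of_rest htb rby
    have cz' : Cmp H t z' := cmp_of_rest htb rbz
    have hx't := cx'.le
    have e1 : s t ≠ s x' := hs t x' (SimpleGraph.Reachable.refl t)
      ⟨htx', by omega, by omega⟩
    have e2 : s x' ≠ s y' := hs x' y' cx' (hmono hxy')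
    have e3 : s y' ≠ s z' := hs y' z' cy' (hmono hyz')
    have d1 : s y = s t := by
      revert hsx hsxy
      cases s t <;> cases s x <;> cases s y <;> simp
    have d2 : s t = s y' := by
      revert e1 e2
      cases s t <;> cases s x' <;> cases s y' <;> simp
    have d3 : s x' = s z' := by
      revert e2 e3
      cases s z' <;> cases s x' <;> cases s y' <;> simp
    exact hP y x t x' y' z' hy.1.symm hx1.symm htx' hxy'.1 hyz'.1
      (hne y t hcy (Cmp.refl H t) d1) (hsep' y x' ray hx') (hsep' y y' ray rby)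
      (hsep' y z' ray rbz) (hsep' x x' rax hx') (hsep' x y' rax rby) (hsep' x z' rax rbz)
      (hne t y' (Cmp.refl H t) cy' d2) hcon (hne x' z' cx' cz' d3)
  obtain ⟨x1, hb1, hb2, hb3⟩ := nbr b htb hb
  have key : ∀ z, (rest H t).Reachable x1 z → ((s z ≠ s t → H.Adj t z) ∧
      (s z = s t → ∀ z', (rest H t).Adj z z' → H.Adj t z')) := by
    apply reach_ind
    · refine ⟨fun _ => hb1, ?_⟩
      intro h
      exact absurd h.symm (hs t x1 (SimpleGraph.Reachable.refl t) ⟨hb1, by omega, by omega⟩)
    · intro z w hz hQ hzw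
      have hbz : (rest H t).Reachable b z := hb3.symm.trans hz
      have hcz : Cmp H t z := cmp_of_rest htb hbz
      have hzw' : s z ≠ s w := hs z w hcz (hmono hzw)
      constructor
      · intro hw
        have : s z = s t := by
          revert hzw' hw
          cases s z <;> cases s w <;> cases s t <;> simp
        exact hQ.2 this w hzw
      · intro hw z' hwz'
        have hzt : s z ≠ s t := by
          revert hzw' hw
          cases s z <;> cases s w <;> cases s t <;> simp
        exact star z w z' hbz (hQ.1 hzt) hzw hwz'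
  intro z hz hsz
  exact (key z (hb3.trans hz)).1 hsz


/-! Five-cycles -/

def C5 (S : SimpleGraph ℕ) (c : ℕ → ℕ) : Prop :=
  S.Adj (c 0) (c 1) ∧ S.Adj (c 1) (c 2) ∧ S.Adj (c 2) (c 3) ∧ S.Adj (c 3) (c 4) ∧ S.Adj (c 4) (c 0)

def Far (S : SimpleGraph ℕ) (c : ℕ → ℕ) (x : ℕ) : Prop := ∀ i, i < 5 → ¬ S.Adj x (c i)

/-- `u` sees `c0`, and `x`, `y` see no vertex of the five-cycle. -/
lemma far_aux {S : SimpleGraph ℕ} (hT : NoTri S) (hP : NoP6 S) {c0 c1 c2 c3 c4 u x y : ℕ}
    (h01 : S.Adj c0 c1) (h12 : S.Adj c1 c2) (h23 : S.Adj c2 c3) (h34 : S.Adj c3 c4)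
    (h40 : S.Adj c4 c0) (hu : S.Adj u c0) (hux : S.Adj u x) (hxy : S.Adj x y)
    (x0 : ¬ S.Adj x c0) (x1 : ¬ S.Adj x c1) (x2 : ¬ S.Adj x c2) (x3 : ¬ S.Adj x c3)
    (x4 : ¬ S.Adj x c4)
    (y0 : ¬ S.Adj y c0) (y1 : ¬ S.Adj y c1) (y2 : ¬ S.Adj y c2) (y3 : ¬ S.Adj y c3)
    (y4 : ¬ S.Adj y c4) : False := by
  have n02 : ¬ S.Adj c0 c2 := fun h => hT _ _ _ h01 h12 h
  have n13 : ¬ S.Adj c1 c3 := fun h => hT _ _ _ h12 h23 h
  have n03 : ¬ S.Adj c0 c3 := fun h => hT _ _ _ h34 h40 h.symm
  have u1 : ¬ S.Adj u c1 := fun h => hT _ _ _ hu h01 h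
  have u4 : ¬ S.Adj u c4 := fun h => hT _ _ _ h h40 hu
  have yu : ¬ S.Adj y u := fun h => hT _ _ _ hux hxy h.symm
  by_cases u2 : S.Adj u c2
  · have u3 : ¬ S.Adj u c3 := fun h => hT _ _ _ u2 h23 h
    exact hP y x u c0 c4 c3 hxy.symm hux.symm hu h40.symm h34.symm
      yu y0 y4 y3 x0 x4 x3 u4 u3 n03
  · by_cases u3 : S.Adj u c3
    · exact hP y x u c0 c1 c2 hxy.symm hux.symm hu h01 h12
        yu y0 y1 y2 x0 x1 x2 u1 u2 n02
    · exact hP x u c0 c1 c2 c3 hux.symm hu h01 h12 h23
        x0 x1 x2 x3 u1 u2 u3 n02 n03 n13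

lemma far_aux' {S : SimpleGraph ℕ} (hT : NoTri S) (hP : NoP6 S) {c : ℕ → ℕ} (hc : C5 S c)
    {u x y : ℕ} (hu : ¬ Far S c u) (hux : S.Adj u x) (hxy : S.Adj x y) (hx : Far S c x)
    (hy : Far S c y) : False := by
  obtain ⟨h01, h12, h23, h34, h40⟩ := hc
  have x0 := hx 0 (by norm_num)
  have x1 := hx 1 (by norm_num)
  have x2 := hx 2 (by norm_num)
  have x3 := hx 3 (by norm_num)
  have x4 := hx 4 (by norm_num)
  have y0 := hy 0 (by norm_num)
  have y1 := hy 1 (by norm_num)
  have y2 := hy 2 (by norm_num)
  have y3 := hy 3 (by norm_num)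
  have y4 := hy 4 (by norm_num)
  unfold Far at hu
  push Not at hu
  obtain ⟨i, hi, hui⟩ := hu
  interval_cases i
  · exact far_aux hT hP h01 h12 h23 h34 h40 hui hux hxy x0 x1 x2 x3 x4 y0 y1 y2 y3 y4
  · exact far_aux hT hP h12 h23 h34 h40 h01 hui hux hxy x1 x2 x3 x4 x0 y1 y2 y3 y4 y0
  · exact far_aux hT hP h23 h34 h40 h01 h12 hui hux hxy x2 x3 x4 x0 x1 y2 y3 y4 y0 y1
  · exact far_aux hT hP h34 h40 h01 h12 h23 hui hux hxy x3 x4 x0 x1 x2 y3 y4 y0 y1 y2
  · exact far_aux hT hP h40 h01 h12 h23 h34 hui hux hxy x4 x0 x1 x2 x3 y4 y0 y1 y2 y3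

/-- In a component with a five-cycle the vertices that do not see it are independent. -/
lemma far_indep {S : SimpleGraph ℕ} (hT : NoTri S) (hP : NoP6 S) {c : ℕ → ℕ} (hc : C5 S c)
    {x y : ℕ} (hr : S.Reachable (c 0) x) (hxy : S.Adj x y) (hx : Far S c x)
    (hy : Far S c y) : False := by
  have key : ∀ z, S.Reachable (c 0) z → (Far S c z → ∃ u, S.Adj u z ∧ ¬ Far S c u) := by
    apply reach_ind
    · intro h
      exact absurd hc.1 (h 1 (by norm_num))
    · intro a b _ hQ hab hb
      by_cases ha : Far S c a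
      · obtain ⟨u, h1, h2⟩ := hQ ha
        exact (far_aux' hT hP hc h2 h1 hab ha hb).elim
      · exact ⟨a, hab, ha⟩
  obtain ⟨u, h1, h2⟩ := key x hr hx
  exact far_aux' hT hP hc h2 h1 hxy hx hy

/-- The vertex that destroys bipartiteness creates a five-cycle. -/
lemma exists_c5 {H : SimpleGraph ℕ} (hT : NoTri H) (hP : NoP6 H) {t : ℕ} (hn : ¬ Bip H t)
    (hb : ∀ a, a < t → Cmp H t a → Bip H a) :
    ∃ c, C5 (rest H (t + 1)) c ∧ (rest H (t + 1)).Reachable t (c 0) := by
  classical
  by_contra hcon
  push Not at hcon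
  have hmono := rest_mono H (Nat.le_succ t)
  have hprp : ∀ a, a < t → Cmp H t a → ∃ s, Prp (rest H t) a s := by
    intro a ha hta
    obtain ⟨u, hu1, hu2, hu3⟩ := latest H t a ha
    obtain ⟨s, hs⟩ := hb u hu1 (cmp_of_rest hta hu2)
    refine ⟨s, ?_⟩
    intro v w hv hvw
    have h1 := hu3 v hv
    have h2 := hu3 w (hv.trans hvw.reachable)
    have h3 := h1.le
    have h4 := h2.le
    exact hs v w h1 ⟨hvw.1, by omega, by omega⟩
  -- two neighbours of the new vertex in the same component are on the same side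
  have same : ∀ x x' s, H.Adj t x → H.Adj t x' → x < t → x' < t → (rest H t).Reachable x x' →
      Prp (rest H t) x s → s x' = s x := by
    intro x x' s hx hx' hxt hxt' hr hs
    by_contra hne
    rcases d3 (hP.rest t) hs x' hr hne with h | ⟨p, q, h1, h2, h3⟩
    · exact hT t x x' hx h.1 hx'
    · have b1 := h1.2.2
      have b2 := h2.2.2
      refine hcon (fun i => if i = 0 then t else if i = 1 then x else if i = 2 then p
        else if i = 3 then q else x') ?_ ?_
      · refine ⟨?_, ?_, ?_, ?_, ?_⟩
        · exact ⟨by simpa using hx, by simp, by simp; omega⟩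
        · exact ⟨by simpa using h1.1, by simp; omega, by simp; omega⟩
        · exact ⟨by simpa using h2.1, by simp; omega, by simp; omega⟩
        · exact ⟨by simpa using h3.1, by simp; omega, by simp; omega⟩
        · exact ⟨by simpa using hx'.symm, by simp; omega, by simp⟩
      · simp
  let E : ℕ → Prop := fun z => ∃ x, H.Adj t x ∧ x < t ∧ (rest H t).Reachable x z ∧
    ∃ s, Prp (rest H t) x s ∧ s x = s z
  apply hn
  refine ⟨fun z => if z = t then true else decide (¬ E z), ?_⟩
  have hnb : ∀ b, b < t → H.Adj t b → E b := by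
    intro b hbt h
    obtain ⟨s, hs⟩ := hprp b hbt (cmp_of_adj h hbt)
    exact ⟨b, h, hbt, SimpleGraph.Reachable.refl b, s, hs, rfl⟩
  intro a b ha hab
  have hab1 := hab.2.1
  have hab2 := hab.2.2
  by_cases hat : a = t
  · have hbt : b ≠ t := by
      rintro rfl
      rw [hat] at hab
      exact (rest H (b + 1)).loopless.irrefl b hab
    have hE : E b := hnb b (by omega) (by rw [← hat]; exact hab.1)
    simp [hat, hbt, hE]
  · by_cases hbt : b = t
    · have hE : E a := hnb a (by omega) (by rw [← hbt]; exact hab.1.symm)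
      simp [hat, hbt, hE]
    · have hab' : (rest H t).Adj a b := ⟨hab.1, by omega, by omega⟩
      simp only [hat, hbt, if_false]
      intro heq
      have hiff : E a ↔ E b := by
        rw [decide_eq_decide] at heq
        exact not_iff_not.1 heq
      by_cases hEa : E a
      · obtain ⟨x, hx1, hx2, hx3, s, hs1, hs2⟩ := hEa
        obtain ⟨x', hx1', hx2', hx3', s', hs1', hs2'⟩ := hiff.1 ⟨x, hx1, hx2, hx3, s, hs1, hs2⟩
        have hxx' : (rest H t).Reachable x x' := (hx3.trans hab'.reachable).trans hx3'.symm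
        have e1 := same x x' s hx1 hx1' hx2 hx2' hxx' hs1
        have hs1'' : Prp (rest H t) x s' := Prp.mono hs1' le_rfl hxx'.symm
        have e2 := two_col' hs1 hs1'' hxx' (hx3.trans hab'.reachable)
        have e3 : s x' = s b := e2.2 hs2'
        have e4 := hs1 a b hx3 hab'
        exact e4 (by rw [← hs2, ← e3, e1])
      · have hEb : ¬ E b := fun h => hEa (hiff.2 h)
        obtain ⟨x, hx1, hx2, hx3⟩ := nbr a ha (by omega)
        obtain ⟨s, hs⟩ := hprp x hx2 (cmp_of_adj hx1 hx2)
        have e1 : s x ≠ s a := fun h => hEa ⟨x, hx1, hx2, hx3, s, hs, h⟩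
        have e2 : s x ≠ s b := fun h => hEb ⟨x, hx1, hx2, hx3.trans hab'.reachable, s, hs, h⟩
        have e3 := hs a b hx3 hab'
        revert e1 e2 e3
        cases s x <;> cases s a <;> cases s b <;> simp


/-! The algorithm -/

def lev (c : ℕ) : ℕ := c / 2 - 2

def bt (c : ℕ) : Bool := decide (c % 2 = 1)

def enc (l : ℕ) (b : Bool) : ℕ := 2 * (l + 2) + (if b then 1 else 0)

lemma lev_enc (l : ℕ) (b : Bool) : lev (enc l b) = l := by
  unfold lev enc
  cases b <;> simp
  omega

lemma bt_enc (l : ℕ) (b : Bool) : bt (enc l b) = b := by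
  unfold bt enc
  cases b <;> simp

open Classical in
noncomputable def maxLev (H : SimpleGraph ℕ) (t : ℕ) (c : ℕ → ℕ) : ℕ :=
  ((Finset.range t).filter fun a => Cmp H t a).sup fun a => lev (c a)

/-- The bit `b` is compatible with the old vertices of largest level. -/
def Okay (H : SimpleGraph ℕ) (t : ℕ) (c : ℕ → ℕ) (b : Bool) : Prop :=
  (∃ a, a < t ∧ Cmp H t a) ∧ ∀ s, Prp (rest H (t + 1)) t s → ∀ a, a < t → Cmp H t a →
    lev (c a) = maxLev H t c → (bt (c a) = b ↔ s a = s t)

noncomputable def pick (H : SimpleGraph ℕ) (u : ℕ) : ℕ → ℕ :=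
  Classical.epsilon fun c => C5 (rest H (u + 1)) c ∧ (rest H (u + 1)).Reachable u (c 0)

noncomputable def first (H : SimpleGraph ℕ) (t : ℕ) : ℕ := sInf {u | Cmp H t u ∧ ¬ Bip H u}

open Classical in
noncomputable def stepc (H : SimpleGraph ℕ) (t : ℕ) (c : ℕ → ℕ) : ℕ :=
  if Bip H t then
    (if h : ∃ b, Okay H t c b then enc (maxLev H t c) h.choose else enc (maxLev H t c + 1) true)
  else sInf {i | i = 5 ∨ (rest H (t + 1)).Adj t (pick H (first H t) i)}

lemma cmp_rest (H : SimpleGraph ℕ) {m u : ℕ} (h : u < m) (a : ℕ) :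
    Cmp (rest H m) u a ↔ Cmp H u a := by
  unfold Cmp
  rw [rest_rest H (by omega : u + 1 ≤ m)]

lemma bip_rest (H : SimpleGraph ℕ) {m u : ℕ} (h : u < m) : Bip (rest H m) u ↔ Bip H u := by
  unfold Bip
  rw [rest_rest H (by omega : u + 1 ≤ m)]

lemma pick_rest (H : SimpleGraph ℕ) {m u : ℕ} (h : u < m) : pick (rest H m) u = pick H u := by
  unfold pick
  rw [rest_rest H (by omega : u + 1 ≤ m)]

lemma first_le (H : SimpleGraph ℕ) (t : ℕ) : first H t ≤ t := by
  unfold first
  rcases Set.eq_empty_or_nonempty {u | Cmp H t u ∧ ¬ Bip H u} with h | h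
  · rw [h]
    simp
  · exact (Nat.sInf_mem h).1.le

lemma first_rest (H : SimpleGraph ℕ) (t : ℕ) : first (rest H (t + 1)) t = first H t := by
  unfold first
  congr 1
  ext u
  simp only [Set.mem_ofPred_eq]
  rw [cmp_rest H (Nat.lt_succ_self t)]
  constructor
  · rintro ⟨h1, h2⟩
    refine ⟨h1, ?_⟩
    rwa [bip_rest H (Nat.lt_succ_of_le h1.le)] at h2
  · rintro ⟨h1, h2⟩
    refine ⟨h1, ?_⟩
    rwa [bip_rest H (Nat.lt_succ_of_le h1.le)]

lemma maxLev_congr (H : SimpleGraph ℕ) (t : ℕ) (c c' : ℕ → ℕ) (h : ∀ a, a < t → c a = c' a) :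
    maxLev (rest H (t + 1)) t c = maxLev H t c' := by
  classical
  unfold maxLev
  have e : ((Finset.range t).filter fun a => Cmp (rest H (t + 1)) t a)
      = ((Finset.range t).filter fun a => Cmp H t a) := by
    ext a
    rw [Finset.mem_filter, Finset.mem_filter, cmp_rest H (Nat.lt_succ_self t)]
  rw [e]
  apply Finset.sup_congr rfl
  intro a ha
  rw [Finset.mem_filter, Finset.mem_range] at ha
  rw [h a ha.1]

lemma okay_congr (H : SimpleGraph ℕ) (t : ℕ) (c c' : ℕ → ℕ) (h : ∀ a, a < t → c a = c' a)
    (b : Bool) : Okay (rest H (t + 1)) t c b ↔ Okay H t c' b := by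
  unfold Okay
  rw [maxLev_congr H t c c' h, rest_rest H le_rfl]
  simp only [cmp_rest H (Nat.lt_succ_self t)]
  constructor
  · rintro ⟨h1, h2⟩
    refine ⟨h1, fun s hs a ha hta hl => ?_⟩
    have := h2 s hs a ha hta
    rw [h a ha] at this
    exact this hl
  · rintro ⟨h1, h2⟩
    refine ⟨h1, fun s hs a ha hta hl => ?_⟩
    have := h2 s hs a ha hta
    rw [← h a ha] at this
    exact this hl

lemma stepc_congr (H : SimpleGraph ℕ) (t : ℕ) (c c' : ℕ → ℕ) (h : ∀ a, a < t → c a = c' a) :
    stepc (rest H (t + 1)) t c = stepc H t c' := by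
  have e1 : Okay (rest H (t + 1)) t c = Okay H t c' :=
    funext fun b => propext (okay_congr H t c c' h b)
  unfold stepc
  rw [bip_rest H (Nat.lt_succ_self t), maxLev_congr H t c c' h, e1, first_rest,
    pick_rest H (Nat.lt_succ_of_le (first_le H t)), rest_rest H le_rfl]

/-- A graph on `Fin m` seen as a graph on the natural numbers. -/
def lift {m : ℕ} (Γ : SimpleGraph (Fin m)) : SimpleGraph ℕ where
  Adj a b := ∃ (ha : a < m) (hb : b < m), Γ.Adj ⟨a, ha⟩ ⟨b, hb⟩
  symm := ⟨fun _ _ ⟨ha, hb, h⟩ => ⟨hb, ha, h.symm⟩⟩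
  loopless := ⟨fun _ ⟨_, _, h⟩ => Γ.loopless.irrefl _ h⟩

noncomputable def alg : OnlineAlg := fun n Γ cols =>
  stepc (lift Γ) n (fun a => if h : a < n then cols ⟨a, h⟩ else 0)

lemma lift_comap (H : SimpleGraph ℕ) (t : ℕ) :
    lift (H.comap fun j : Fin (t + 1) => j.1) = rest H (t + 1) := by
  ext a b
  constructor
  · rintro ⟨ha, hb, h⟩
    exact ⟨h, ha, hb⟩
  · rintro ⟨h, ha, hb⟩
    exact ⟨ha, hb, h⟩

lemma run_alg (H : SimpleGraph ℕ) (t : ℕ) : run alg H t = stepc H t (run alg H) := by
  rw [run]
  unfold alg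
  rw [lift_comap]
  apply stepc_congr
  intro a ha
  simp [ha]


/-- The invariants of the algorithm. -/
structure Inv (H : SimpleGraph ℕ) (c : ℕ → ℕ) (t : ℕ) : Prop where
  pos : 1 ≤ lev (c t)
  max : ∀ a, Cmp H t a → lev (c a) ≤ lev (c t)
  cons : ∀ s, Prp (rest H (t + 1)) t s → ∀ a b, Cmp H t a → Cmp H t b →
    lev (c a) = lev (c t) → lev (c b) = lev (c t) → (bt (c a) = bt (c b) ↔ s a = s b)
  emb : ∃ f : List Bool → ℕ, (∀ l, l.length < lev (c t) → Cmp H t (f l)) ∧
    (∀ l l', l.length < lev (c t) → l'.length < lev (c t) → f l = f l' → l = l') ∧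
    (∀ l l', l.length < lev (c t) → l'.length < lev (c t) → (H.Adj (f l) (f l') ↔ sadj l l')) ∧
    (∀ s, Prp (rest H (t + 1)) t s → ∀ a, Cmp H t a → lev (c a) = lev (c t) →
      ∀ l, l.length < lev (c t) → (bt (c a) = par l ↔ s a = s (f l)))

lemma le_maxLev (H : SimpleGraph ℕ) (t : ℕ) (c : ℕ → ℕ) {a : ℕ} (ha : a < t) (h : Cmp H t a) :
    lev (c a) ≤ maxLev H t c := by
  classical
  unfold maxLev
  apply Finset.le_sup (f := fun a => lev (c a))
  simp [ha, h]

lemma exists_maxLev (H : SimpleGraph ℕ) (t : ℕ) (c : ℕ → ℕ) (hne : ∃ a, a < t ∧ Cmp H t a) :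
    ∃ a, a < t ∧ Cmp H t a ∧ lev (c a) = maxLev H t c := by
  classical
  obtain ⟨a, ha, hta⟩ := hne
  have hn : ((Finset.range t).filter fun a => Cmp H t a).Nonempty := ⟨a, by simp [ha, hta]⟩
  obtain ⟨b, hb, hb'⟩ := Finset.exists_mem_eq_sup _ hn (fun a => lev (c a))
  rw [Finset.mem_filter, Finset.mem_range] at hb
  exact ⟨b, hb.1, hb.2, hb'.symm⟩

lemma maxLev_zero (H : SimpleGraph ℕ) (t : ℕ) (c : ℕ → ℕ) (hne : ¬ ∃ a, a < t ∧ Cmp H t a) :
    maxLev H t c = 0 := by
  classical
  unfold maxLev
  have : ((Finset.range t).filter fun a => Cmp H t a) = ∅ := by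
    rw [Finset.filter_eq_empty_iff]
    intro a ha h
    exact hne ⟨a, Finset.mem_range.1 ha, h⟩
  rw [this]
  rfl

lemma eq_or_lt_of_cmp {H : SimpleGraph ℕ} {t a : ℕ} (h : Cmp H t a) : a = t ∨ a < t := by
  have := h.le
  omega

def node (t : ℕ) (f1 f2 : List Bool → ℕ) : List Bool → ℕ
  | [] => t
  | true :: l => f2 l
  | false :: l => f1 l

/-- Two copies of `X_m` and a new root form a copy of `X_{m+1}`. -/
lemma node_spec {H : SimpleGraph ℕ} {t m : ℕ} {f1 f2 : List Bool → ℕ}
    (A1 : ∀ l, l.length < m → (H.Adj t (f1 l) ↔ par l = true))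
    (A2 : ∀ l, l.length < m → (H.Adj t (f2 l) ↔ par l = false))
    (A12 : ∀ l l', l.length < m → l'.length < m → ¬ H.Adj (f1 l) (f2 l'))
    (D12 : ∀ l l', l.length < m → l'.length < m → f1 l ≠ f2 l')
    (hlt1 : ∀ l, l.length < m → f1 l < t) (hlt2 : ∀ l, l.length < m → f2 l < t)
    (p2 : ∀ l l', l.length < m → l'.length < m → f1 l = f1 l' → l = l')
    (q2 : ∀ l l', l.length < m → l'.length < m → f2 l = f2 l' → l = l')
    (p3 : ∀ l l', l.length < m → l'.length < m → (H.Adj (f1 l) (f1 l') ↔ sadj l l'))
    (q3 : ∀ l l', l.length < m → l'.length < m → (H.Adj (f2 l) (f2 l') ↔ sadj l l')) :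
    (∀ l l', l.length < m + 1 → l'.length < m + 1 → node t f1 f2 l = node t f1 f2 l' → l = l') ∧
    (∀ l l', l.length < m + 1 → l'.length < m + 1 →
      (H.Adj (node t f1 f2 l) (node t f1 f2 l') ↔ sadj l l')) := by
  constructor
  · intro l l' hl hl' he
    match l, l', hl, hl', he with
    | [], [], _, _, _ => rfl
    | [], true :: l', _, hl', he =>
      have h1 := hlt2 l' (by simpa using hl')
      have h2 : t = f2 l' := he
      omega
    | [], false :: l', _, hl', he =>
      have h1 := hlt1 l' (by simpa using hl')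
      have h2 : t = f1 l' := he
      omega
    | true :: l, [], hl, _, he =>
      have h1 := hlt2 l (by simpa using hl)
      have h2 : f2 l = t := he
      omega
    | false :: l, [], hl, _, he =>
      have h1 := hlt1 l (by simpa using hl)
      have h2 : f1 l = t := he
      omega
    | true :: l, true :: l', hl, hl', he =>
      have := q2 l l' (by simpa using hl) (by simpa using hl') he
      rw [this]
    | false :: l, false :: l', hl, hl', he =>
      have := p2 l l' (by simpa using hl) (by simpa using hl') he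
      rw [this]
    | true :: l, false :: l', hl, hl', he =>
      exact (D12 l' l (by simpa using hl') (by simpa using hl) he.symm).elim
    | false :: l, true :: l', hl, hl', he =>
      exact (D12 l l' (by simpa using hl) (by simpa using hl') he).elim
  · intro l l' hl hl'
    match l, l', hl, hl' with
    | [], [], _, _ => simp [sadj]
    | [], true :: l', _, hl' =>
      have h1 := A2 l' (by simpa using hl')
      simpa [sadj, par, node] using h1
    | [], false :: l', _, hl' =>
      have h1 := A1 l' (by simpa using hl')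
      simpa [sadj, par, node] using h1
    | true :: l, [], hl, _ =>
      have h1 := A2 l (by simpa using hl)
      rw [SimpleGraph.adj_comm] at h1
      simpa [sadj, par, node] using h1
    | false :: l, [], hl, _ =>
      have h1 := A1 l (by simpa using hl)
      rw [SimpleGraph.adj_comm] at h1
      simpa [sadj, par, node] using h1
    | true :: l, true :: l', hl, hl' =>
      have := q3 l l' (by simpa using hl) (by simpa using hl')
      simpa [sadj, node] using this
    | false :: l, false :: l', hl, hl' =>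
      have := p3 l l' (by simpa using hl) (by simpa using hl')
      simpa [sadj, node] using this
    | true :: l, false :: l', hl, hl' =>
      have := A12 l' l (by simpa using hl') (by simpa using hl)
      have h2 : ¬ H.Adj (f2 l) (f1 l') := fun h => this h.symm
      simpa [sadj, node] using h2
    | false :: l, true :: l', hl, hl' =>
      have := A12 l l' (by simpa using hl) (by simpa using hl')
      simpa [sadj, node] using this

lemma inv {H : SimpleGraph ℕ} (hP : NoP6 H) (c : ℕ → ℕ) (hc : ∀ t, c t = stepc H t c) :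
    ∀ t, Bip H t → Inv H c t := by
  classical
  intro t
  induction t using Nat.strong_induction_on with
  | _ t ih =>
  intro hbip
  have ih' : ∀ a, a < t → Cmp H t a → Inv H c a := fun a ha hta => ih a ha (hbip.cmp hta)
  have hle : ∀ a, a < t → Cmp H t a → lev (c a) ≤ maxLev H t c :=
    fun a ha hta => le_maxLev H t c ha hta
  by_cases hok : ∃ b, Okay H t c b
  · -- the level stays
    have hct : c t = enc (maxLev H t c) hok.choose := by
      rw [hc t]
      unfold stepc
      rw [if_pos hbip, dif_pos hok]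
    obtain ⟨hne, hO⟩ := hok.choose_spec
    generalize hok.choose = b0 at hct hO
    have hlt : lev (c t) = maxLev H t c := by rw [hct, lev_enc]
    have hbt : bt (c t) = b0 := by rw [hct, bt_enc]
    obtain ⟨a, ha, hta, hla⟩ := exists_maxLev H t c hne
    have hall : ∀ s, Prp (rest H (t + 1)) t s → ∀ x, Cmp H t x → lev (c x) = lev (c t) →
        (bt (c x) = b0 ↔ s x = s t) := by
      intro s hs x hx hl
      rcases eq_or_lt_of_cmp hx with rfl | hxt
      · simp [hbt]
      · exact hO s hs x hxt hx (hl.trans hlt)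
    have hI := ih' a ha hta
    have hcons : ∀ s, Prp (rest H (t + 1)) t s → ∀ a b, Cmp H t a → Cmp H t b →
        lev (c a) = lev (c t) → lev (c b) = lev (c t) → (bt (c a) = bt (c b) ↔ s a = s b) := by
      intro s hs x y hx hy hlx hly
      have h1 := hall s hs x hx hlx
      have h2 := hall s hs y hy hly
      revert h1 h2
      cases bt (c x) <;> cases bt (c y) <;> cases b0 <;> cases s x <;> cases s y <;>
        cases s t <;> simp
    refine ⟨?_, ?_, hcons, ?_⟩
    · rw [hlt, ← hla]
      exact hI.pos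
    · intro x hx
      rcases eq_or_lt_of_cmp hx with rfl | hxt
      · exact le_rfl
      · rw [hlt]
        exact hle x hxt hx
    · obtain ⟨f, f1, f2, f3, f4⟩ := hI.emb
      have hlev : lev (c a) = lev (c t) := hla.trans hlt.symm
      rw [hlev] at f1 f2 f3 f4
      refine ⟨f, fun l hl => hta.trans (f1 l hl), f2, f3, ?_⟩
      intro s hs x hx hlx l hl
      have h1 := hcons s hs x a hx hta hlx hlev
      have h2 := f4 s (hs.cmp hta) a (Cmp.refl H a) hlev l hl
      revert h1 h2
      cases bt (c x) <;> cases bt (c a) <;> cases par l <;> cases s x <;> cases s a <;>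
        cases s (f l) <;> simp
  · -- a new level
    have hct : c t = enc (maxLev H t c + 1) true := by
      rw [hc t]
      unfold stepc
      rw [if_pos hbip, dif_neg hok]
    have hlt : lev (c t) = maxLev H t c + 1 := by rw [hct, lev_enc]
    have hbt : bt (c t) = true := by rw [hct, bt_enc]
    have honly : ∀ a, Cmp H t a → lev (c a) = lev (c t) → a = t := by
      intro a ha hl
      rcases eq_or_lt_of_cmp ha with rfl | hat
      · rfl
      · have := hle a hat ha
        omega
    refine ⟨by omega, ?_, ?_, ?_⟩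
    · intro x hx
      rcases eq_or_lt_of_cmp hx with rfl | hxt
      · exact le_rfl
      · have := hle x hxt hx
        omega
    · intro s _ a b ha hb hla hlb
      rw [honly a ha hla, honly b hb hlb]
      simp
    · by_cases hne : ∃ a, a < t ∧ Cmp H t a
      · have hokT : ¬ Okay H t c true := fun h => hok ⟨true, h⟩
        have hokF : ¬ Okay H t c false := fun h => hok ⟨false, h⟩
        unfold Okay at hokT hokF
        push Not at hokT hokF
        obtain ⟨s, hs, a1, ha1, hta1, hl1, hn1⟩ := hokT hne
        obtain ⟨s2, hs2, a2, ha2, hta2, hl2, hn2'⟩ := hokF hne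
        have hn1 : ¬ (bt (c a1) = true ↔ s a1 = s t) := by
          intro h
          rcases hn1 with ⟨h1, h2⟩ | ⟨h1, h2⟩
          · exact h2 (h.1 h1)
          · exact h1 (h.2 h2)
        have hn2'' : ¬ (bt (c a2) = false ↔ s2 a2 = s2 t) := by
          intro h
          rcases hn2' with ⟨h1, h2⟩ | ⟨h1, h2⟩
          · exact h2 (h.1 h1)
          · exact h1 (h.2 h2)
        have hss := two_col hs hs2 a2 hta2
        rw [← hss] at hn2''
        obtain ⟨u1, hu1, hr1, hx1⟩ := latest H t a1 ha1
        obtain ⟨u2, hu2, hr2, hx2⟩ := latest H t a2 ha2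
        have htu1 : Cmp H t u1 := cmp_of_rest hta1 hr1
        have htu2 : Cmp H t u2 := cmp_of_rest hta2 hr2
        have hI1 := ih' u1 hu1 htu1
        have hI2 := ih' u2 hu2 htu2
        have hc1 : Cmp H u1 a1 := hx1 a1 (SimpleGraph.Reachable.refl a1)
        have hc2 : Cmp H u2 a2 := hx2 a2 (SimpleGraph.Reachable.refl a2)
        have hm1 : lev (c u1) = maxLev H t c := by
          have h1 := hI1.max a1 hc1
          have h2 := hle u1 hu1 htu1
          omega
        have hm2 : lev (c u2) = maxLev H t c := by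
          have h1 := hI2.max a2 hc2
          have h2 := hle u2 hu2 htu2
          omega
        have hmpos : 1 ≤ maxLev H t c := by
          rw [← hm1]
          exact hI1.pos
        have hsep : ¬ (rest H t).Reachable a1 a2 := by
          intro h
          have hc12 : Cmp H u1 a2 := hx1 a2 h
          have := hI1.cons s (hs.cmp htu1) a1 a2 hc1 hc12 (by omega) (by omega)
          revert this hn1 hn2''
          cases bt (c a1) <;> cases bt (c a2) <;> cases s a1 <;> cases s a2 <;>
            cases s t <;> simp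
        have hsep' : ¬ (rest H t).Reachable a2 a1 := fun h => hsep h.symm
        obtain ⟨f1, p1, p2, p3, p4⟩ := hI1.emb
        obtain ⟨f2, q1, q2, q3, q4⟩ := hI2.emb
        rw [hm1] at p1 p2 p3 p4
        rw [hm2] at q1 q2 q3 q4
        -- orientation of the two copies
        have o1 : ∀ l, l.length < maxLev H t c → (par l = true ↔ s (f1 l) ≠ s t) := by
          intro l hl
          have := p4 s (hs.cmp htu1) a1 hc1 hl1 l hl
          revert this hn1
          cases bt (c a1) <;> cases par l <;> cases s a1 <;> cases s (f1 l) <;>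
            cases s t <;> simp
        have o2 : ∀ l, l.length < maxLev H t c → (par l = true ↔ s (f2 l) = s t) := by
          intro l hl
          have := q4 s (hs.cmp htu2) a2 hc2 hl2 l hl
          revert this hn2''
          cases bt (c a2) <;> cases par l <;> cases s a2 <;> cases s (f2 l) <;>
            cases s t <;> simp
        have hr1' : ∀ l, l.length < maxLev H t c → (rest H t).Reachable a1 (f1 l) := by
          intro l hl
          exact hr1.trans (SimpleGraph.Reachable.mono (rest_mono H hu1) (p1 l hl))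
        have hr2' : ∀ l, l.length < maxLev H t c → (rest H t).Reachable a2 (f2 l) := by
          intro l hl
          exact hr2.trans (SimpleGraph.Reachable.mono (rest_mono H hu2) (q1 l hl))
        have hlt1 : ∀ l, l.length < maxLev H t c → f1 l < t := fun l hl => reach_lt ha1 _ (hr1' l hl)
        have hlt2 : ∀ l, l.length < maxLev H t c → f2 l < t := fun l hl => reach_lt ha2 _ (hr2' l hl)
        have hC1 : ∀ l, l.length < maxLev H t c → Cmp H t (f1 l) :=
          fun l hl => cmp_of_rest hta1 (hr1' l hl)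
        have hC2 : ∀ l, l.length < maxLev H t c → Cmp H t (f2 l) :=
          fun l hl => cmp_of_rest hta2 (hr2' l hl)
        have hside : ∀ x, x < t → H.Adj t x → s x ≠ s t := by
          intro x hx h
          exact (hs t x (SimpleGraph.Reachable.refl t) ⟨h, by omega, by omega⟩).symm
        -- adjacency of the new vertex to the two copies
        have A1 : ∀ l, l.length < maxLev H t c → (H.Adj t (f1 l) ↔ par l = true) := by
          intro l hl
          constructor
          · intro h
            exact (o1 l hl).2 (hside _ (hlt1 l hl) h)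
          · intro h
            have h0 : ([] : List Bool).length < maxLev H t c := by
              simp only [List.length_nil]
              omega
            exact complete hP hs ha2 ha1 hta2 hta1 hsep' (hr2' [] h0)
              ((o2 [] h0).1 rfl) (f1 l) (hr1' l hl) ((o1 l hl).1 h)
        have A2 : ∀ l, l.length < maxLev H t c → (H.Adj t (f2 l) ↔ par l = false) := by
          intro l hl
          constructor
          · intro h
            have h1 := hside _ (hlt2 l hl) h
            have h2 := o2 l hl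
            revert h1 h2
            cases par l <;> simp
          · intro h
            have h1 : s (f1 l) = s t := by
              have := o1 l hl
              rw [h] at this
              simpa using this
            have h2 : s (f2 l) ≠ s t := by
              have := o2 l hl
              rw [h] at this
              simpa using this
            exact complete hP hs ha1 ha2 hta1 hta2 hsep (hr1' l hl) h1 (f2 l) (hr2' l hl) h2
        have A12 : ∀ l l', l.length < maxLev H t c → l'.length < maxLev H t c →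
            ¬ H.Adj (f1 l) (f2 l') := by
          intro l l' hl hl' h
          have : (rest H t).Adj (f1 l) (f2 l') := ⟨h, hlt1 l hl, hlt2 l' hl'⟩
          exact hsep (((hr1' l hl).trans this.reachable).trans (hr2' l' hl').symm)
        have D12 : ∀ l l', l.length < maxLev H t c → l'.length < maxLev H t c →
            f1 l ≠ f2 l' := by
          intro l l' hl hl' h
          have h1 := hr1' l hl
          rw [h] at h1
          exact hsep (h1.trans (hr2' l' hl').symm)
        rw [hlt]
        obtain ⟨g1, g2⟩ := node_spec A1 A2 A12 D12 hlt1 hlt2 p2 q2 p3 q3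
        refine ⟨node t f1 f2, ?_, g1, g2, ?_⟩
        · intro l hl
          match l, hl with
          | [], _ => exact Cmp.refl H t
          | true :: l, hl => exact hC2 l (by simpa using hl)
          | false :: l, hl => exact hC1 l (by simpa using hl)
        · intro s' hs' a ha hla l hl
          have hat := honly a ha (hla.trans hlt.symm)
          subst hat
          rw [hbt]
          match l, hl with
          | [], _ => simp [par, node]
          | true :: l, hl =>
            have h1 := o2 l (by simpa using hl)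
            have h2 := two_col' hs' hs (Cmp.refl H a) (hC2 l (by simpa using hl))
            have h3 : node a f1 f2 (true :: l) = f2 l := rfl
            have h4 : par (true :: l) = par l := rfl
            rw [h3, h4, h2]
            clear h2 h3 h4
            revert h1
            cases par l <;> cases s (f2 l) <;> cases s a <;> simp
          | false :: l, hl =>
            have h1 := o1 l (by simpa using hl)
            have h2 := two_col' hs' hs (Cmp.refl H a) (hC1 l (by simpa using hl))
            have h3 : node a f1 f2 (false :: l) = f1 l := rfl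
            have h4 : par (false :: l) = !par l := rfl
            rw [h3, h4, h2]
            clear h2 h3 h4
            revert h1
            cases par l <;> cases s (f1 l) <;> cases s a <;> simp
      · have hm0 := maxLev_zero H t c hne
        rw [hlt, hm0]
        have hnil : ∀ l : List Bool, l.length < 0 + 1 → l = [] := by
          intro l hl
          exact List.length_eq_zero_iff.1 (by omega)
        refine ⟨fun _ => t, fun _ _ => Cmp.refl H t, ?_, ?_, ?_⟩
        · intro l l' hl hl' _
          rw [hnil l hl, hnil l' hl']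
        · intro l l' hl hl'
          rw [hnil l hl, hnil l' hl']
          simp [sadj]
        · intro s' _ a ha hla l hl
          have hat := honly a ha (by rw [hla, hlt, hm0])
          rw [hnil l hl, hat, hbt]
          simp [par]


/-- The colour in a component that is not bipartite. -/
lemma nonbip_colour {H : SimpleGraph ℕ} (hT : NoTri H) (hP : NoP6 H) (c : ℕ → ℕ)
    (hc : ∀ t, c t = stepc H t c) {t : ℕ} (hn : ¬ Bip H t) :
    Cmp H t (first H t) ∧ C5 (rest H (first H t + 1)) (pick H (first H t)) ∧
    Cmp H (first H t) (pick H (first H t) 0) ∧ c t ≤ 5 ∧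
    (c t < 5 → H.Adj t (pick H (first H t) (c t))) ∧
    (c t = 5 → Far (rest H (t + 1)) (pick H (first H t)) t) := by
  have hne : {u | Cmp H t u ∧ ¬ Bip H u}.Nonempty := ⟨t, Cmp.refl H t, hn⟩
  have hmem : Cmp H t (first H t) ∧ ¬ Bip H (first H t) := Nat.sInf_mem hne
  obtain ⟨h1, h2⟩ := hmem
  have h3 : ∀ a, a < first H t → Cmp H (first H t) a → Bip H a := by
    intro a ha hca
    by_contra hcon
    have : a ∈ {u | Cmp H t u ∧ ¬ Bip H u} := ⟨h1.trans hca, hcon⟩
    have := Nat.sInf_le this
    unfold first at ha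
    omega
  have h4 := exists_c5 hT hP h2 h3
  have h5 : C5 (rest H (first H t + 1)) (pick H (first H t)) ∧
      (rest H (first H t + 1)).Reachable (first H t) (pick H (first H t) 0) :=
    Classical.epsilon_spec h4
  have h6 : c t = sInf {i | i = 5 ∨ (rest H (t + 1)).Adj t (pick H (first H t) i)} := by
    rw [hc t]
    unfold stepc
    rw [if_neg hn]
  have hne' : {i | i = 5 ∨ (rest H (t + 1)).Adj t (pick H (first H t) i)}.Nonempty :=
    ⟨5, Or.inl rfl⟩
  have h7 := Nat.sInf_mem hne'
  rw [← h6] at h7
  have h8 : c t ≤ 5 := by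
    rw [h6]
    exact Nat.sInf_le (Or.inl rfl)
  refine ⟨h1, h5.1, h5.2, h8, ?_, ?_⟩
  · intro hlt
    rcases h7 with h7 | h7
    · omega
    · exact h7.1
  · intro he i hi hadj
    have : c t ≤ i := by
      rw [h6]
      exact Nat.sInf_le (Or.inr hadj)
    omega

lemma C5.mono {S S' : SimpleGraph ℕ} (h : S ≤ S') {c : ℕ → ℕ} (hc : C5 S c) : C5 S' c :=
  ⟨h hc.1, h hc.2.1, h hc.2.2.1, h hc.2.2.2.1, h hc.2.2.2.2⟩

lemma C5.reach {S : SimpleGraph ℕ} {c : ℕ → ℕ} (hc : C5 S c) :
    ∀ i, i < 5 → S.Reachable (c 0) (c i) := by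
  obtain ⟨h0, h1, h2, h3, _⟩ := hc
  have r1 := h0.reachable
  have r2 := r1.trans h1.reachable
  have r3 := r2.trans h2.reachable
  have r4 := r3.trans h3.reachable
  intro i hi
  interval_cases i
  · exact SimpleGraph.Reachable.refl _
  · exact r1
  · exact r2
  · exact r3
  · exact r4

/-- Adjacent vertices get different colours. -/
lemma proper {H : SimpleGraph ℕ} (hT : NoTri H) (hP : NoP6 H) (c : ℕ → ℕ)
    (hc : ∀ t, c t = stepc H t c) {a b : ℕ} (hab : H.Adj b a) (hlt : a < b) : c a ≠ c b := by
  classical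
  have hba : Cmp H b a := cmp_of_adj hab hlt
  by_cases hB : Bip H b
  · have hI := inv hP c hc a (hB.cmp hba)
    have hle := le_maxLev H b c hlt hba
    by_cases hok : ∃ b', Okay H b c b'
    · have hct : c b = enc (maxLev H b c) hok.choose := by
        rw [hc b]
        unfold stepc
        rw [if_pos hB, dif_pos hok]
      obtain ⟨hne, hO⟩ := hok.choose_spec
      generalize hok.choose = b0 at hct hO
      intro heq
      obtain ⟨s, hs⟩ := hB
      have h1 := hO s hs a hlt hba (by rw [heq, hct, lev_enc])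
      have h2 : bt (c a) = b0 := by rw [heq, hct, bt_enc]
      have h3 := hs b a (Cmp.refl H b) ⟨hab, by omega, by omega⟩
      exact h3 (h1.1 h2).symm
    · have hct : c b = enc (maxLev H b c + 1) true := by
        rw [hc b]
        unfold stepc
        rw [if_pos hB, dif_neg hok]
      intro heq
      have : lev (c a) = maxLev H b c + 1 := by rw [heq, hct, lev_enc]
      omega
  · obtain ⟨b1, b2, b3, b4, b5, b6⟩ := nonbip_colour hT hP c hc hB
    by_cases hA : Bip H a
    · have hI := (inv hP c hc a hA).pos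
      unfold lev at hI
      omega
    · obtain ⟨a1, a2, a3, a4, a5, a6⟩ := nonbip_colour hT hP c hc hA
      have hTr := hT.rest (b + 1)
      have hPr := hP.rest (b + 1)
      have ha1 := a1.le
      have hb1 := b1.le
      have hfirst : first H a = first H b := by
        have hle : first H b ≤ first H a := by
          have hmem : Cmp H a (first H a) ∧ ¬ Bip H (first H a) :=
            Nat.sInf_mem (s := {u | Cmp H a u ∧ ¬ Bip H u}) ⟨a, Cmp.refl H a, hA⟩
          exact Nat.sInf_le (s := {u | Cmp H b u ∧ ¬ Bip H u}) ⟨hba.trans hmem.1, hmem.2⟩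
        rcases Nat.lt_or_ge (first H b) (first H a) with hlt' | hge
        · exfalso
          have hbmem : Cmp H b (first H b) ∧ ¬ Bip H (first H b) :=
            Nat.sInf_mem (s := {u | Cmp H b u ∧ ¬ Bip H u}) ⟨b, Cmp.refl H b, hB⟩
          have hnot : ¬ Cmp H a (first H b) := by
            intro h
            have := Nat.sInf_le (s := {u | Cmp H a u ∧ ¬ Bip H u}) ⟨h, hbmem.2⟩
            unfold first at hlt'
            unfold first at this
            omega
          -- the two five-cycles
          have hAi : ∀ i, i < 5 → Cmp H a (pick H (first H a) i) := by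
            intro i hi
            exact a1.trans (a3.trans' (a2.reach i hi))
          have hBi : ∀ i, i < 5 → Cmp H (first H b) (pick H (first H b) i) := by
            intro i hi
            exact b3.trans' (b2.reach i hi)
          have hfar : ∀ i, i < 5 → Far (rest H (b + 1)) (pick H (first H b))
              (pick H (first H a) i) := by
            intro i hi j hj hadj
            have e1 := hAi i hi
            have e2 := hBi j hj
            have e3 := e1.le
            have e4 := e2.le
            have e5 : (rest H (a + 1)).Adj (pick H (first H a) i) (pick H (first H b) j) :=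
              ⟨hadj.1, by omega, by omega⟩
            have e6 : (rest H (a + 1)).Reachable (first H b) (pick H (first H b) j) :=
              SimpleGraph.Reachable.mono (rest_mono H (by omega)) e2
            exact hnot ((SimpleGraph.Reachable.trans e1 e5.reachable).trans e6.symm)
          have hcb : C5 (rest H (b + 1)) (pick H (first H b)) :=
            C5.mono (rest_mono H (by omega)) b2
          have hca : C5 (rest H (b + 1)) (pick H (first H a)) :=
            C5.mono (rest_mono H (by omega)) a2
          have hreach : (rest H (b + 1)).Reachable (pick H (first H b) 0)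
              (pick H (first H a) 0) := by
            have e1 : Cmp H b (pick H (first H b) 0) := b1.trans b3
            have e2 : Cmp H b (pick H (first H a) 0) := hba.trans (a1.trans a3)
            exact SimpleGraph.Reachable.trans (SimpleGraph.Reachable.symm e1) e2
          exact far_indep hTr hPr hcb hreach hca.1 (hfar 0 (by norm_num)) (hfar 1 (by norm_num))
        · omega
      intro heq
      rcases Nat.lt_or_ge (c a) 5 with h5 | h5
      · have e1 := a5 h5
        have e2 := b5 (by omega)
        rw [← hfirst, ← heq] at e2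
        exact hT b a _ hab e1 e2
      · have hca : c a = 5 := by omega
        have hcb : c b = 5 := by omega
        have f1 := a6 hca
        have f2 := b6 hcb
        rw [hfirst] at f1
        have hcc : C5 (rest H (b + 1)) (pick H (first H b)) :=
          C5.mono (rest_mono H (by omega)) b2
        have f1' : Far (rest H (b + 1)) (pick H (first H b)) a := by
          intro i hi hadj
          refine f1 i hi ⟨hadj.1, by omega, ?_⟩
          have g1 : Cmp H (first H b) (pick H (first H b) i) := b3.trans' (b2.reach i hi)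
          have g2 := g1.le
          omega
        have hreach : (rest H (b + 1)).Reachable (pick H (first H b) 0) b := by
          have e1 : Cmp H b (pick H (first H b) 0) := b1.trans b3
          exact SimpleGraph.Reachable.symm e1
        exact far_indep hTr hPr hcc hreach ⟨hab, by omega, by omega⟩ f2 f1'


/-! The theorem -/

lemma path_embed {V : Type} {G : SimpleGraph V} {a0 a1 a2 a3 a4 a5 : V}
    (h01 : G.Adj a0 a1) (h12 : G.Adj a1 a2) (h23 : G.Adj a2 a3) (h34 : G.Adj a3 a4)
    (h45 : G.Adj a4 a5) (n02 : ¬ G.Adj a0 a2) (n03 : ¬ G.Adj a0 a3) (n04 : ¬ G.Adj a0 a4)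
    (n05 : ¬ G.Adj a0 a5) (n13 : ¬ G.Adj a1 a3) (n14 : ¬ G.Adj a1 a4) (n15 : ¬ G.Adj a1 a5)
    (n24 : ¬ G.Adj a2 a4) (n25 : ¬ G.Adj a2 a5) (n35 : ¬ G.Adj a3 a5) :
    Nonempty (SimpleGraph.pathGraph 6 ↪g G) := by
  have m02 : ¬ G.Adj a2 a0 := fun h => n02 h.symm
  have m03 : ¬ G.Adj a3 a0 := fun h => n03 h.symm
  have m04 : ¬ G.Adj a4 a0 := fun h => n04 h.symm
  have m05 : ¬ G.Adj a5 a0 := fun h => n05 h.symm
  have m13 : ¬ G.Adj a3 a1 := fun h => n13 h.symm
  have m14 : ¬ G.Adj a4 a1 := fun h => n14 h.symm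
  have m15 : ¬ G.Adj a5 a1 := fun h => n15 h.symm
  have m24 : ¬ G.Adj a4 a2 := fun h => n24 h.symm
  have m25 : ¬ G.Adj a5 a2 := fun h => n25 h.symm
  have m35 : ¬ G.Adj a5 a3 := fun h => n35 h.symm
  let f : Fin 6 → V := ![a0, a1, a2, a3, a4, a5]
  have hf : ∀ i j : Fin 6, G.Adj (f i) (f j) ↔ (SimpleGraph.pathGraph 6).Adj i j := by
    intro i j
    rw [SimpleGraph.pathGraph_adj]
    fin_cases i <;> fin_cases j <;>
      simp [f, h01, h12, h23, h34, h45, h01.symm, h12.symm, h23.symm, h34.symm, h45.symm,
        n02, n03, n04, n05, n13, n14, n15, n24, n25, n35,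
        m02, m03, m04, m05, m13, m14, m15, m24, m25, m35]
  have hinj : Function.Injective f := by
    intro i j hij
    have h1 : ∀ k : Fin 6, (SimpleGraph.pathGraph 6).Adj i k ↔
        (SimpleGraph.pathGraph 6).Adj j k := by
      intro k
      rw [← hf, ← hf, hij]
    simp only [SimpleGraph.pathGraph_adj] at h1
    revert h1
    revert i j
    intro i j _ h1
    have key : ∀ i j : Fin 6, (∀ k : Fin 6, (i.val + 1 = k.val ∨ k.val + 1 = i.val) ↔
        (j.val + 1 = k.val ∨ k.val + 1 = j.val)) → i = j := by decide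
    exact key i j h1
  exact ⟨⟨⟨f, hinj⟩, by
    intro i j
    exact hf i j⟩⟩

lemma noTri_lift {N : ℕ} {G : SimpleGraph (Fin N)} (h : G.CliqueFree 3) : NoTri (lift G) := by
  rintro a b c ⟨ha, hb, hab⟩ ⟨_, hc, hbc⟩ ⟨_, _, hac⟩
  exact h {⟨a, ha⟩, ⟨b, hb⟩, ⟨c, hc⟩} (SimpleGraph.is3Clique_triple_iff.2 ⟨hab, hac, hbc⟩)

lemma noP6_lift {N : ℕ} {G : SimpleGraph (Fin N)} (h : IsEmpty (SimpleGraph.pathGraph 6 ↪g G)) :
    NoP6 (lift G) := by
  rintro a0 a1 a2 a3 a4 a5 ⟨b0, b1, h01⟩ ⟨_, b2, h12⟩ ⟨_, b3, h23⟩ ⟨_, b4, h34⟩ ⟨_, b5, h45⟩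
    n02 n03 n04 n05 n13 n14 n15 n24 n25 n35
  have hne := path_embed h01 h12 h23 h34 h45
    (fun q => n02 ⟨b0, b2, q⟩) (fun q => n03 ⟨b0, b3, q⟩) (fun q => n04 ⟨b0, b4, q⟩)
    (fun q => n05 ⟨b0, b5, q⟩) (fun q => n13 ⟨b1, b3, q⟩) (fun q => n14 ⟨b1, b4, q⟩)
    (fun q => n15 ⟨b1, b5, q⟩) (fun q => n24 ⟨b2, b4, q⟩) (fun q => n25 ⟨b2, b5, q⟩)
    (fun q => n35 ⟨b3, b5, q⟩)
  exact h.elim hne.some

lemma c3p6_comap {N : ℕ} {G : SimpleGraph (Fin N)} (h : C3P6Free N G) (π : Equiv.Perm (Fin N)) :
    NoTri (lift (G.comap π)) ∧ NoP6 (lift (G.comap π)) := by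
  have e : G.comap π ↪g G := SimpleGraph.Embedding.comap π.toEmbedding G
  constructor
  · apply noTri_lift
    exact h.1.comap ⟨e.toCopy⟩
  · apply noP6_lift
    refine ⟨fun f => h.2.elim (e.comp f)⟩

lemma colour_alg {N : ℕ} (G : SimpleGraph (Fin N)) (π : Equiv.Perm (Fin N)) (i : ℕ) (hi : i < N) :
    colour alg G π i hi = run alg (lift (G.comap π)) i := by
  apply colour_eq_run alg G π _ N ?_ i hi hi
  intro a b ha hb _ _
  constructor
  · rintro ⟨_, _, h⟩
    exact h
  · intro h
    exact ⟨ha, hb, h⟩

lemma alg_works {N : ℕ} {G : SimpleGraph (Fin N)} (h : C3P6Free N G) : WorksOn alg G := by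
  intro π i j hij
  rw [colour_alg, colour_alg]
  obtain ⟨hT, hP⟩ := c3p6_comap h π
  have hadj : (lift (G.comap π)).Adj i j := ⟨i.2, j.2, hij⟩
  have hc := run_alg (lift (G.comap π))
  rcases lt_trichotomy i.1 j.1 with hlt | heq | hlt
  · exact proper hT hP _ hc hadj.symm hlt
  · exact absurd heq (SimpleGraph.Adj.ne hadj)
  · exact (proper hT hP _ hc hadj hlt).symm

/-- The algorithm uses at most `8 * chiOL G + 8` colours. -/
theorem alg_bound {N : ℕ} {G : SimpleGraph (Fin N)} (h : C3P6Free N G) :
    chiA alg G ≤ 8 * chiOL G + 8 := by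
  have hne : {k : ℕ | ∃ A : OnlineAlg, WorksOn A G ∧ chiA A G = k}.Nonempty :=
    ⟨_, alg, alg_works h, rfl⟩
  obtain ⟨A, hA, hAc⟩ := Nat.sInf_mem hne
  have hAc : chiA A G = chiOL G := hAc
  unfold chiA
  apply Finset.sup_le
  intro π _
  unfold numColours
  have hsub : (Finset.univ.image fun i : Fin N => colour alg G π i i.2) ⊆
      Finset.range (8 * chiOL G + 8) := by
    intro x hx
    obtain ⟨i, _, rfl⟩ := Finset.mem_image.1 hx
    rw [colour_alg, Finset.mem_range]
    obtain ⟨hT, hP⟩ := c3p6_comap h π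
    have hc := run_alg (lift (G.comap π))
    by_cases hB : Bip (lift (G.comap π)) i.1
    · obtain ⟨f, f1, f2, f3, _⟩ := (inv hP _ hc i.1 hB).emb
      by_contra hcon
      have hlev : 4 * chiOL G + 2 ≤ lev (run alg (lift (G.comap π)) i.1) := by
        unfold lev
        omega
      have hlt : ∀ l : List Bool, l.length < 4 * chiOL G + 2 → f l < N := by
        intro l hl
        have h1 := (f1 l (by omega)).le
        have h2 := i.2
        omega
      classical
      have hlow := lower A G hA (chiOL G)
        (fun l => if hl : f l < N then π ⟨f l, hl⟩ else i) (by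
          intro l l' hl hl' he
          rw [dif_pos (hlt l hl), dif_pos (hlt l' hl')] at he
          have h1 := π.injective he
          have h2 : f l = f l' := congrArg Fin.val h1
          exact f2 l l' (by omega) (by omega) h2) (by
          intro l l' hl hl'
          rw [dif_pos (hlt l hl), dif_pos (hlt l' hl'), ← f3 l l' (by omega) (by omega)]
          constructor
          · intro hadj
            exact ⟨hlt l hl, hlt l' hl', hadj⟩
          · rintro ⟨_, _, hadj⟩
            exact hadj)
      omega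
    · have := (nonbip_colour hT hP _ hc hB).2.2.2.1
      omega
  have := Finset.card_le_card hsub
  simpa using this

/-- The class of `(C3, P6)`-free graphs is on-line `chiOL`-bounded. -/
theorem result : IsOnlineBounded C3P6Free :=
  ⟨alg, fun _ _ h => alg_works h, fun k => 8 * k + 8, fun _ _ h => alg_bound h⟩

end Pool.Agent.Results.MP_ada285_co.OnlineBounded
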